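import Pool.Agent.Q77.LU.StmA

set_option autoImplicit false

/-! Project LU (helper77): auxiliary lemmas for the jobs LLB and UPB. -/

namespace Pool.Agent.Q61.LU

open MeasureTheory Set Filter Topology
open scoped ContDiff
open Pool.Agent.Q77.LU

noncomputable section

/-- continuous with compact support -/
structure CC {X : Type} [TopologicalSpace X] (F : X → ℝ) : Prop where
  cont : Continuous F
  supp : HasCompactSupport F

section
variable {X : Type} [TopologicalSpace X]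

theorem CC.add {F G : X → ℝ} (h1 : CC F) (h2 : CC G) : CC (fun x => F x + G x) :=
  ⟨h1.cont.add h2.cont, h1.supp.add h2.supp⟩

theorem CC.sub {F G : X → ℝ} (h1 : CC F) (h2 : CC G) : CC (fun x => F x - G x) :=
  ⟨h1.cont.sub h2.cont, h1.supp.sub h2.supp⟩

theorem CC.mulL {F G : X → ℝ} (h1 : Continuous G) (h2 : CC F) : CC (fun x => G x * F x) :=
  ⟨h1.mul h2.cont, h2.supp.mul_left⟩

theorem CC.mulR {F G : X → ℝ} (h2 : CC F) (h1 : Continuous G) : CC (fun x => F x * G x) :=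
  ⟨h2.cont.mul h1, h2.supp.mul_right⟩

theorem CC.constL {F : X → ℝ} (c : ℝ) (h2 : CC F) : CC (fun x => c * F x) :=
  CC.mulL continuous_const h2

theorem CC.congr' {F G : X → ℝ} (h : CC F) (e : ∀ x, G x = F x) : CC G := by
  have : G = F := funext e
  rw [this]; exact h

theorem CC.sq {F : X → ℝ} (h : CC F) : CC (fun x => F x ^ 2) :=
  (h.mulR h.cont).congr' fun x => by ring

theorem CC.sum {ι : Type} (s : Finset ι) {F : ι → X → ℝ} (h : ∀ i ∈ s, CC (F i)) : CC (fun x => ∑ i ∈ s, F i x) := by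
  classical
  induction s using Finset.induction_on with
  | empty => simpa using (⟨continuous_const, HasCompactSupport.zero⟩ : CC (fun _ : X => (0 : ℝ)))
  | insert a s ha ih =>
    have h1 := (h a (Finset.mem_insert_self a s)).add (ih fun i hi => h i (Finset.mem_insert_of_mem hi))
    refine h1.congr' ?_
    intro x
    rw [Finset.sum_insert ha]

theorem CC.int {F : X → ℝ} (h : CC F) [MeasurableSpace X] [OpensMeasurableSpace X] {μ : Measure X}
    [IsFiniteMeasureOnCompacts μ] [T2Space X] : Integrable F μ :=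
  h.cont.integrable_of_hasCompactSupport h.supp

end

theorem n2_nonneg {ι : Type} [Fintype ι] (x : ι → ℝ) : 0 ≤ n2 x := Finset.sum_nonneg fun _ _ => sq_nonneg _

theorem nr_nonneg {ι : Type} [Fintype ι] (x : ι → ℝ) : 0 ≤ nr x := Real.sqrt_nonneg _

theorem nr_sq {ι : Type} [Fintype ι] (x : ι → ℝ) : nr x ^ 2 = n2 x := Real.sq_sqrt (n2_nonneg x)

theorem abs_le_nr {ι : Type} [Fintype ι] (x : ι → ℝ) (i : ι) : |x i| ≤ nr x := by
  unfold nr
  rw [← Real.sqrt_sq_eq_abs]
  exact Real.sqrt_le_sqrt (Finset.single_le_sum (f := fun i => x i ^ 2) (fun _ _ => sq_nonneg _) (Finset.mem_univ i))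

theorem cont_n2 {ι : Type} [Fintype ι] : Continuous (n2 : (ι → ℝ) → ℝ) := by
  unfold n2; fun_prop

theorem cont_nr {ι : Type} [Fintype ι] : Continuous (nr : (ι → ℝ) → ℝ) := by
  unfold nr; exact cont_n2.sqrt

section
variable {P Q : Type} [Fintype P] [DecidableEq P] [Fintype Q] [DecidableEq Q]

theorem cont_nx : Continuous (nx : (P → ℝ) × (Q → ℝ) → ℝ) := by
  unfold nx; exact (cont_n2.comp continuous_fst).add (cont_n2.comp continuous_snd)

theorem nx_nonneg (x : (P → ℝ) × (Q → ℝ)) : 0 ≤ nx x := add_nonneg (n2_nonneg _) (n2_nonneg _)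

theorem cs_n2 {ι : Type} [Fintype ι] {F : (ι → ℝ) → ℝ} {d : ℝ} (h : ∀ x, F x ≠ 0 → n2 x ≤ d) : HasCompactSupport F := by
  refine HasCompactSupport.of_support_subset_isCompact (isCompact_closedBall (0 : ι → ℝ) (Real.sqrt d)) ?_
  intro x hx
  rw [mem_closedBall_zero_iff, pi_norm_le_iff_of_nonneg (Real.sqrt_nonneg _)]
  intro i
  rw [Real.norm_eq_abs]
  exact (abs_le_nr x i).trans (Real.sqrt_le_sqrt (h x hx))

theorem cs_nx {F : (P → ℝ) × (Q → ℝ) → ℝ} {d : ℝ} (h : ∀ x, F x ≠ 0 → nx x ≤ d) : HasCompactSupport F := by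
  refine HasCompactSupport.of_support_subset_isCompact
    (isCompact_closedBall (0 : (P → ℝ) × (Q → ℝ)) (Real.sqrt d)) ?_
  intro x hx
  have h1 := h x hx
  have h2 := n2_nonneg x.1
  have h3 := n2_nonneg x.2
  unfold nx at h1
  rw [mem_closedBall_zero_iff, Prod.norm_def, max_le_iff, pi_norm_le_iff_of_nonneg (Real.sqrt_nonneg _),
    pi_norm_le_iff_of_nonneg (Real.sqrt_nonneg _)]
  constructor
  · intro i
    rw [Real.norm_eq_abs]
    exact (abs_le_nr x.1 i).trans (Real.sqrt_le_sqrt (by linarith))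
  · intro i
    rw [Real.norm_eq_abs]
    exact (abs_le_nr x.2 i).trans (Real.sqrt_le_sqrt (by linarith))

theorem fd_nx {F : (P → ℝ) × (Q → ℝ) → ℝ} {d : ℝ} (h : ∀ x, F x ≠ 0 → nx x < d) {x : (P → ℝ) × (Q → ℝ)}
    (hx : fderiv ℝ F x ≠ 0) : nx x ≤ d := by
  have h1 : x ∈ tsupport F := support_fderiv_subset ℝ hx
  have h2 : tsupport F ⊆ {x | nx x ≤ d} := by
    refine closure_minimal ?_ (isClosed_le cont_nx continuous_const)
    intro x hx
    exact (h x hx).le
  exact h2 h1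

theorem fd_n2 {ι : Type} [Fintype ι] {F : (ι → ℝ) → ℝ} {d : ℝ} (h : ∀ x, F x ≠ 0 → n2 x ≤ d) {x : ι → ℝ}
    (hx : fderiv ℝ F x ≠ 0) : n2 x ≤ d := by
  have h1 : x ∈ tsupport F := support_fderiv_subset ℝ hx
  have h2 : tsupport F ⊆ {x | n2 x ≤ d} := by
    refine closure_minimal ?_ (isClosed_le cont_n2 continuous_const)
    intro x hx
    exact h x hx
  exact h2 h1

theorem gC_cc {F : (P → ℝ) × (Q → ℝ) → ℝ} (hF : ContDiff ℝ 1 F) (hs : HasCompactSupport F) : CC (gC F) := by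
  unfold gC
  refine CC.sum _ fun i _ => CC.sq ⟨?_, ?_⟩
  · exact (hF.continuous_fderiv (by norm_num)).clm_apply continuous_const
  · exact (hs.fderiv ℝ).comp_left (g := fun l : (P → ℝ) × (Q → ℝ) →L[ℝ] ℝ => l (Pi.single i 1, 0)) rfl

theorem gA_cc {F : (P → ℝ) × (Q → ℝ) → ℝ} (hF : ContDiff ℝ 1 F) (hs : HasCompactSupport F) : CC (gA F) := by
  unfold gA
  refine CC.sum _ fun i _ => CC.sq ⟨?_, ?_⟩
  · exact (hF.continuous_fderiv (by norm_num)).clm_apply continuous_const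
  · exact (hs.fderiv ℝ).comp_left (g := fun l : (P → ℝ) × (Q → ℝ) →L[ℝ] ℝ => l (0, Pi.single i 1)) rfl

theorem g2_cc {F : (P → ℝ) → ℝ} (hF : ContDiff ℝ 1 F) (hs : HasCompactSupport F) : CC (g2 F) := by
  unfold g2 pd
  refine CC.sum _ fun i _ => CC.sq ⟨?_, ?_⟩
  · exact (hF.continuous_fderiv (by norm_num)).clm_apply continuous_const
  · exact (hs.fderiv ℝ).comp_left (g := fun l : (P → ℝ) →L[ℝ] ℝ => l (Pi.single i 1)) rfl

theorem gC_nonneg (F : (P → ℝ) × (Q → ℝ) → ℝ) (x) : 0 ≤ gC F x := Finset.sum_nonneg fun _ _ => sq_nonneg _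
theorem gA_nonneg (F : (P → ℝ) × (Q → ℝ) → ℝ) (x) : 0 ≤ gA F x := Finset.sum_nonneg fun _ _ => sq_nonneg _
theorem g2_nonneg (F : (P → ℝ) → ℝ) (x) : 0 ≤ g2 F x := Finset.sum_nonneg fun _ _ => sq_nonneg _

theorem gA_eq {F : (P → ℝ) × (Q → ℝ) → ℝ} (hF : ContDiff ℝ 1 F) (C : P → ℝ) (a : Q → ℝ) :
    gA F (C, a) = g2 (fun a => F (C, a)) a := by
  unfold gA g2 pd
  refine Finset.sum_congr rfl fun i _ => ?_
  have h1 : HasFDerivAt F (fderiv ℝ F (C, a)) (C, a) := (hF.differentiable (by norm_num)).differentiableAt.hasFDerivAt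
  have h2 := h1.comp a (hasFDerivAt_prodMk_right C a)
  have h3 : (F ∘ fun a => (C, a)) = fun a => F (C, a) := rfl
  rw [h3] at h2
  rw [h2.fderiv]
  rfl

theorem gC_eq {F : (P → ℝ) × (Q → ℝ) → ℝ} (hF : ContDiff ℝ 1 F) (C : P → ℝ) (a : Q → ℝ) :
    gC F (C, a) = g2 (fun C => F (C, a)) C := by
  unfold gC g2 pd
  refine Finset.sum_congr rfl fun i _ => ?_
  have h1 : HasFDerivAt F (fderiv ℝ F (C, a)) (C, a) := (hF.differentiable (by norm_num)).differentiableAt.hasFDerivAt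
  have h2 := HasFDerivAt.comp (f := fun C : P → ℝ => (C, a)) C h1 (hasFDerivAt_prodMk_left (𝕜 := ℝ) C a)
  have h3 : (F ∘ fun C => (C, a)) = fun C => F (C, a) := rfl
  rw [h3] at h2
  rw [h2.fderiv]
  rfl

/-- sections -/
theorem CC.secR {F : (P → ℝ) × (Q → ℝ) → ℝ} (h : CC F) (C : P → ℝ) : CC (fun a => F (C, a)) := by
  refine ⟨h.cont.comp (by fun_prop), ?_⟩
  refine HasCompactSupport.of_support_subset_isCompact (h.supp.isCompact.image continuous_snd) ?_
  intro a ha
  exact ⟨(C, a), subset_tsupport _ ha, rfl⟩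

theorem CC.secL {F : (P → ℝ) × (Q → ℝ) → ℝ} (h : CC F) (a : Q → ℝ) : CC (fun C => F (C, a)) := by
  refine ⟨h.cont.comp (by fun_prop), ?_⟩
  refine HasCompactSupport.of_support_subset_isCompact (h.supp.isCompact.image continuous_fst) ?_
  intro C hC
  exact ⟨(C, a), subset_tsupport _ hC, rfl⟩

theorem CC.fub {F : (P → ℝ) × (Q → ℝ) → ℝ} (h : CC F) : ∫ x, F x = ∫ C, ∫ a, F (C, a) := by
  rw [Measure.volume_eq_prod]
  exact integral_prod F (by rw [← Measure.volume_eq_prod]; exact h.int)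

theorem CC.fub' {F : (P → ℝ) × (Q → ℝ) → ℝ} (h : CC F) : ∫ x, F x = ∫ a, ∫ C, F (C, a) := by
  rw [Measure.volume_eq_prod]
  exact integral_prod_symm F (by rw [← Measure.volume_eq_prod]; exact h.int)

theorem CC.intL {F : (P → ℝ) × (Q → ℝ) → ℝ} (h : CC F) : Integrable (fun C => ∫ a, F (C, a)) := by
  have h1 : Integrable F (volume.prod volume) := by rw [← Measure.volume_eq_prod]; exact h.int
  exact h1.integral_prod_left

theorem CC.intR {F : (P → ℝ) × (Q → ℝ) → ℝ} (h : CC F) : Integrable (fun a => ∫ C, F (C, a)) := by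
  have h1 : Integrable F (volume.prod volume) := by rw [← Measure.volume_eq_prod]; exact h.int
  exact h1.integral_prod_right

theorem A_bd (L : Loc P Q) : ∃ KA : ℝ, 0 ≤ KA ∧ ∀ C i j, |L.A C i j| ≤ KA * nr C := by
  refine ⟨∑ i, ∑ j, ∑ p, |L.A (Pi.single p 1) i j|, by positivity, fun C i j => ?_⟩
  have h1 : L.A C = ∑ p, C p • L.A (Pi.single p 1) := by
    have h0 : C = ∑ p, C p • (Pi.single p 1 : P → ℝ) := by
      funext q
      simp [Finset.sum_apply, Pi.single_apply]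
    conv_lhs => rw [h0, map_sum]
    simp only [map_smul]
  rw [h1, Matrix.sum_apply]
  refine (Finset.abs_sum_le_sum_abs _ _).trans ?_
  have h2 : ∑ p, |(C p • L.A (Pi.single p 1)) i j| ≤ ∑ p, |L.A (Pi.single p 1) i j| * nr C := by
    refine Finset.sum_le_sum fun p _ => ?_
    rw [Matrix.smul_apply, smul_eq_mul, abs_mul, mul_comm]
    exact mul_le_mul_of_nonneg_left (abs_le_nr C p) (abs_nonneg _)
  refine h2.trans ?_
  rw [← Finset.sum_mul]
  refine mul_le_mul_of_nonneg_right ?_ (nr_nonneg C)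
  refine (Finset.single_le_sum (f := fun j => ∑ p, |L.A (Pi.single p 1) i j|) (fun _ _ => by positivity) (Finset.mem_univ j)).trans ?_
  exact Finset.single_le_sum (f := fun i => ∑ j, ∑ p, |L.A (Pi.single p 1) i j|) (fun _ _ => by positivity) (Finset.mem_univ i)

end

end

end Pool.Agent.Q61.LU
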