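import Pool.Agent.Q61.LU.Base

set_option autoImplicit false

/-! Project LU (helper77), job LLB: the local lower bound. -/

namespace Pool.Agent.Q61.LU

open MeasureTheory Set Filter Topology
open scoped ContDiff
open Pool.Agent.Q77.LU

noncomputable section

theorem ev_small (K c : ℝ) (hc : 0 < c) : ∀ᶠ δ : ℝ in 𝓝[>] 0, K * δ ≤ c := by
  have h1 : Tendsto (fun δ : ℝ => K * δ) (𝓝[>] 0) (𝓝 (K * 0)) :=
    (tendsto_id.const_mul K).mono_left nhdsWithin_le_nhds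
  rw [mul_zero] at h1
  exact (h1.eventually (eventually_lt_nhds hc)).mono fun _ h => h.le

section
variable {P Q : Type} [Fintype P] [DecidableEq P] [Fintype Q] [DecidableEq Q]

/-- lower bound of the fibre potential -/
def lowf (L : Loc P Q) (K0 : ℝ) (C : P → ℝ) (a : Q → ℝ) : ℝ :=
  1 / 2 * ∑ i, L.om i ^ 2 * a i ^ 2 + 1 / 2 * ∑ i, a i * ((L.A C).mulVec a) i -
      K0 * (nr C ^ 2 * n2 a + nr a ^ 3)

theorem cont_lowf (L : Loc P Q) (K0 : ℝ) (C : P → ℝ) : Continuous (lowf L K0 C) := by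
  unfold lowf
  have h1 : Continuous fun a : Q → ℝ => (L.A C).mulVec a := by
    unfold Matrix.mulVec dotProduct
    fun_prop
  have h2 : ∀ i, Continuous fun a : Q → ℝ => ((L.A C).mulVec a) i := fun i => (continuous_apply i).comp h1
  have h3 := cont_n2 (ι := Q)
  have h4 := cont_nr (ι := Q)
  fun_prop

theorem fiber (h1 : S_FIB) (L : Loc P Q) {θ K0 : ℝ} (hθ : 0 < θ) (hK0 : 0 ≤ K0) (hKK : L.K ≤ K0)
    (hA : ∀ C i j, |L.A C i j| ≤ K0 * nr C) : ∃ δF K1 η : ℝ, 0 < δF ∧ 0 ≤ K1 ∧ 0 < η ∧ ∀ δ : ℝ, 0 < δ → δ ≤ δF → δ ≤ L.r →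
    ∀ g : ℝ, 0 < g → g ≤ δ → ∀ φ : (P → ℝ) × (Q → ℝ) → ℝ, ContDiff ℝ 1 φ → (∀ x, φ x ≠ 0 → nx x < δ ^ 2) → ∀ C : P → ℝ,
    (∫ a, (L.e0 - θ * nr C - K1 * (n2 C + g)) * φ (C, a) ^ 2) + η * ((∫ a, φ (C, a) ^ 2) - (∫ a, φ (C, a) * gau L.om g a) ^ 2) ≤
      ∫ a, (g ^ 2 / 2 * (1 + -L.K * nx (C, a)) * gA φ (C, a) + 1 / g ^ 2 * (L.w (C, a) - (L.c4 - L.K * nr C) * L.v C) *
        φ (C, a) ^ 2) := by
  obtain ⟨δF, K1, η, hδF, hK1, hη, hF⟩ := h1 Q L.om K0 θ L.ompos hK0 hθ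
  refine ⟨δF, K1, η, hδF, hK1, hη, ?_⟩
  intro δ hδ hδδ hδr g hg hgδ φ hφ hsupp C
  have hφs : HasCompactSupport φ := cs_nx (d := δ ^ 2) fun x hx => (hsupp x hx).le
  have hφc : CC φ := ⟨hφ.continuous, hφs⟩
  by_cases hC : nr C ≤ δ
  swap
  · -- all vanishes
    have hz : ∀ a, φ (C, a) = 0 := by
      intro a
      by_contra h
      have h2 := hsupp _ h
      unfold nx at h2
      have h3 := n2_nonneg a
      have h4 : n2 C < δ ^ 2 := by simp only at h2; linarith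
      rw [← nr_sq] at h4
      exact hC (abs_le_of_sq_le_sq' h4.le hδ.le).2
    have hz2 : ∀ a, gA φ (C, a) = 0 := by
      intro a
      rw [gA_eq hφ]
      have : (fun a => φ (C, a)) = fun _ => 0 := funext hz
      rw [this]
      simp [g2, pd]
    simp [hz, hz2]
  · have hsec : ContDiff ℝ 1 (fun a => φ (C, a)) := hφ.comp (contDiff_const.prodMk contDiff_id)
    have hC2 : n2 C ≤ δ ^ 2 := by rw [← nr_sq]; exact pow_le_pow_left₀ (nr_nonneg C) hC 2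
    have hws : Continuous fun a => L.w (C, a) := L.wcont.comp (by fun_prop)
    set u : (Q → ℝ) → ℝ := fun a => max (L.w (C, a) - (L.c4 - L.K * nr C) * L.v C) (lowf L K0 C a) with hu
    have huc : Continuous u := by
      rw [hu]
      exact (hws.sub continuous_const).max (cont_lowf L K0 C)
    have hsA : ∀ a, φ (C, a) ≠ 0 → n2 a < δ ^ 2 := by
      intro a ha
      have h2 := hsupp _ ha
      unfold nx at h2
      have h3 := n2_nonneg C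
      simp only at h2; linarith
    have hδF2 : δ ^ 2 ≤ δF ^ 2 := pow_le_pow_left₀ hδ.le hδδ 2
    have hA' : ∀ i j, |L.A C i j| ≤ K0 * nr C := hA C
    have key := hF g (nr C) hg (hgδ.trans hδδ) (nr_nonneg C) (hC.trans hδδ) (L.A C) (L.Asymm C) hA' (L.Atr C) u huc
      (fun a _ => le_max_right _ _) (fun a => φ (C, a)) hsec (fun a ha => (hsA a ha).trans_le hδF2)
    rw [nr_sq] at key
    refine key.trans ?_
    have hgc : CC (fun a => gA φ (C, a)) := (gA_cc hφ hφs).secR C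
    have hpc : CC (fun a => φ (C, a) ^ 2) := (hφc.secR C).sq
    have hnx : Continuous fun a : Q → ℝ => nx (C, a) := cont_nx.comp (by fun_prop)
    have i1 : CC (fun a => g ^ 2 / 2 * (1 - K0 * (n2 C + n2 a)) * g2 (fun a => φ (C, a)) a + 1 / g ^ 2 * u a * φ (C, a) ^ 2) := by
      have e1 : (fun a => g ^ 2 / 2 * (1 - K0 * (n2 C + n2 a)) * g2 (fun a => φ (C, a)) a + 1 / g ^ 2 * u a * φ (C, a) ^ 2) =
          fun a => (g ^ 2 / 2 * (1 - K0 * (n2 C + n2 a))) * gA φ (C, a) + (1 / g ^ 2 * u a) * φ (C, a) ^ 2 := by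
        funext a
        rw [gA_eq hφ]
      rw [e1]
      have := cont_n2 (ι := Q)
      exact (CC.mulL (by fun_prop) hgc).add (CC.mulL (by fun_prop) hpc)
    have i2 : CC (fun a => g ^ 2 / 2 * (1 + -L.K * nx (C, a)) * gA φ (C, a) + 1 / g ^ 2 * (L.w (C, a) - (L.c4 - L.K * nr C) * L.v C) *
        φ (C, a) ^ 2) :=
      (CC.mulL (by fun_prop) hgc).add (CC.mulL (by fun_prop) hpc)
    refine integral_mono i1.int i2.int fun a => ?_
    show g ^ 2 / 2 * (1 - K0 * (n2 C + n2 a)) * g2 (fun a => φ (C, a)) a + 1 / g ^ 2 * u a * φ (C, a) ^ 2 ≤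
      g ^ 2 / 2 * (1 + -L.K * nx (C, a)) * gA φ (C, a) + 1 / g ^ 2 * (L.w (C, a) - (L.c4 - L.K * nr C) * L.v C) * φ (C, a) ^ 2
    rw [gA_eq hφ]
    have hn : nx (C, a) = n2 C + n2 a := rfl
    have t1 : g ^ 2 / 2 * (1 - K0 * (n2 C + n2 a)) * g2 (fun a => φ (C, a)) a ≤
        g ^ 2 / 2 * (1 + -L.K * nx (C, a)) * g2 (fun a => φ (C, a)) a := by
      refine mul_le_mul_of_nonneg_right (mul_le_mul_of_nonneg_left ?_ (by positivity)) (g2_nonneg _ _)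
      rw [hn]
      have h5 : 0 ≤ n2 C + n2 a := add_nonneg (n2_nonneg C) (n2_nonneg a)
      nlinarith
    have t2 : 1 / g ^ 2 * u a * φ (C, a) ^ 2 ≤ 1 / g ^ 2 * (L.w (C, a) - (L.c4 - L.K * nr C) * L.v C) * φ (C, a) ^ 2 := by
      by_cases hz : φ (C, a) = 0
      · rw [hz]; simp
      · have h5 := hsupp _ hz
        have h6 : nx (C, a) ≤ L.r ^ 2 := h5.le.trans (pow_le_pow_left₀ hδ.le hδr 2)
        have h7 := L.tay _ h6
        have h8 := (abs_le.1 h7).1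
        simp only at h8
        have h9 : u a = L.w (C, a) - (L.c4 - L.K * nr C) * L.v C := by
          rw [hu]
          apply max_eq_left
          unfold lowf
          rw [nr_sq]
          have h10 : 0 ≤ n2 C * n2 a + nr a ^ 3 := by
            have := n2_nonneg C
            have := n2_nonneg a
            have := nr_nonneg a
            positivity
          nlinarith
        rw [h9]
    linarith

theorem X_ge_I1 (h3 : S_SCS) (L : Loc P Q) {g : ℝ} (hg : 0 < g) {φ : (P → ℝ) × (Q → ℝ) → ℝ} (hφ : ContDiff ℝ 1 φ)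
    (hφs : HasCompactSupport φ) :
    Real.sqrt L.c4 * L.κ * ∫ x, nr x.1 * φ x ^ 2 ≤ ∫ x, (g ^ 2 / 2 * gC φ x + L.c4 / g ^ 2 * L.v x.1 * φ x ^ 2) := by
  have hφc : CC φ := ⟨hφ.continuous, hφs⟩
  have hv := L.cont
  have hn := cont_nr (ι := P)
  have c1 : CC (fun x : (P → ℝ) × (Q → ℝ) => nr x.1 * φ x ^ 2) := CC.mulL (by fun_prop) hφc.sq
  have c2 : CC (fun x : (P → ℝ) × (Q → ℝ) => g ^ 2 / 2 * gC φ x + L.c4 / g ^ 2 * L.v x.1 * φ x ^ 2) :=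
    (CC.constL _ (gC_cc hφ hφs)).add (CC.mulL (by fun_prop) hφc.sq)
  rw [c1.fub', c2.fub', ← integral_const_mul]
  refine integral_mono (c1.intR.const_mul _) c2.intR fun a => ?_
  have hsec : ContDiff ℝ 1 (fun C => φ (C, a)) := hφ.comp (contDiff_id.prodMk contDiff_const)
  have h := h3 P L.toPot L.c4 g L.c4pos hg (fun C => φ (C, a)) hsec (hφc.secL a).supp
  refine h.trans (le_of_eq ?_)
  refine integral_congr_ae (Eventually.of_forall fun C => ?_)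
  show g ^ 2 / 2 * g2 (fun C => φ (C, a)) C + L.c4 / g ^ 2 * L.v C * φ (C, a) ^ 2 =
    g ^ 2 / 2 * gC φ (C, a) + L.c4 / g ^ 2 * L.v C * φ (C, a) ^ 2
  rw [gC_eq hφ]

theorem X_ge_Y (h4 : S_TSM) (L : Loc P Q) {g : ℝ} (hg : 0 < g) {f : (P → ℝ) × (Q → ℝ) → ℝ} (hf : ContDiff ℝ ∞ f)
    (hfs : HasCompactSupport f) {φ : (P → ℝ) × (Q → ℝ) → ℝ} (hφ : φ = fun x => f x * Real.sqrt (L.J x)) (hφd : ContDiff ℝ 1 φ)
    (hφs : HasCompactSupport φ) :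
    ∫ C, (g ^ 2 / 2 * g2 (L.T g f) C + L.c4 / g ^ 2 * L.v C * L.T g f C ^ 2) ≤
      ∫ x, (g ^ 2 / 2 * gC φ x + L.c4 / g ^ 2 * L.v x.1 * φ x ^ 2) := by
  have hφc : CC φ := ⟨hφd.continuous, hφs⟩
  obtain ⟨t1, t2, t3, t4, -⟩ := h4 P Q L g hg f hf hfs
  have hv := L.cont
  have c2 : CC (fun x : (P → ℝ) × (Q → ℝ) => g ^ 2 / 2 * gC φ x + L.c4 / g ^ 2 * L.v x.1 * φ x ^ 2) :=
    (CC.constL _ (gC_cc hφd hφs)).add (CC.mulL (by fun_prop) hφc.sq)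
  have t1' : ContDiff ℝ 1 (L.T g f) := t1.of_le (by norm_cast)
  have hT : CC (L.T g f) := ⟨t1.continuous, t2⟩
  have c1 : CC (fun C => g ^ 2 / 2 * g2 (L.T g f) C + L.c4 / g ^ 2 * L.v C * L.T g f C ^ 2) :=
    (CC.constL _ (g2_cc t1' t2)).add (CC.mulL (by fun_prop) hT.sq)
  rw [c2.fub]
  refine integral_mono c1.int c2.intL fun C => ?_
  have i1 : Integrable (fun a : Q → ℝ => gC φ (C, a)) := ((gC_cc hφd hφs).secR C).int
  have i2 : Integrable (fun a : Q → ℝ => φ (C, a) ^ 2) := ((hφc.secR C).sq).int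
  show g ^ 2 / 2 * g2 (L.T g f) C + L.c4 / g ^ 2 * L.v C * L.T g f C ^ 2 ≤
    ∫ a, (g ^ 2 / 2 * gC φ (C, a) + L.c4 / g ^ 2 * L.v C * φ (C, a) ^ 2)
  rw [integral_add (i1.const_mul _) (i2.const_mul _), integral_const_mul, integral_const_mul]
  have hJ : ∀ x, φ x ^ 2 = f x ^ 2 * L.J x := by
    intro x
    rw [hφ]
    simp only
    rw [mul_pow, Real.sq_sqrt (L.Jpos x).le]
  have e3 : L.T g f C ^ 2 ≤ ∫ a : Q → ℝ, φ (C, a) ^ 2 := by
    simp_rw [hJ]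
    exact t3 C
  have e4 : g2 (L.T g f) C ≤ ∫ a : Q → ℝ, gC φ (C, a) := by
    rw [hφ]
    exact t4 C
  have hc := L.c4pos
  have hv0 := L.nonneg C
  have p1 : g ^ 2 / 2 * g2 (L.T g f) C ≤ g ^ 2 / 2 * ∫ a : Q → ℝ, gC φ (C, a) := mul_le_mul_of_nonneg_left e4 (by positivity)
  have p2 : L.c4 / g ^ 2 * L.v C * L.T g f C ^ 2 ≤ L.c4 / g ^ 2 * L.v C * ∫ a : Q → ℝ, φ (C, a) ^ 2 :=
    mul_le_mul_of_nonneg_left e3 (by positivity)
  linarith

theorem llb_core (h1 : S_FIB) (h2 : S_JR) (h3 : S_SCS) (h4 : S_TSM) (L : Loc P Q) {ε : ℝ} (hε : 0 < ε) (hε1 : ε ≤ 1) :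
    ∃ δ K η : ℝ, 0 < δ ∧ 0 ≤ K ∧ 0 < η ∧ ∀ g : ℝ, 0 < g → g ≤ δ →
  ∀ f : (P → ℝ) × (Q → ℝ) → ℝ, ContDiff ℝ ∞ f → (∀ x, f x ≠ 0 → nx x < δ ^ 2) →
  (L.e0 - K * g) * (∫ x, f x ^ 2 * L.J x) +
      (1 - ε) * (∫ C, (g ^ 2 / 2 * g2 (L.T g f) C + L.c4 / g ^ 2 * L.v C * L.T g f C ^ 2)) +
      η * ((∫ x, f x ^ 2 * L.J x) - ∫ C, L.T g f C ^ 2) ≤
    ∫ x, (g ^ 2 / 2 * (1 - L.K * nx x) * (gC f x + gA f x) + 1 / g ^ 2 * L.w x * f x ^ 2) * L.J x := by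
  obtain ⟨KA, hKA0, hKA⟩ := A_bd L
  have hc4 := L.c4pos
  have hκ := L.pos
  have hKL := L.K0
  have hsc : 0 < Real.sqrt L.c4 := Real.sqrt_pos.2 hc4
  set θ : ℝ := ε * (Real.sqrt L.c4 * L.κ) / 4 with hθ
  have hθ0 : 0 < θ := by positivity
  have hK0 : 0 ≤ max L.K KA := le_max_of_le_left hKL
  obtain ⟨δF, K1, η, hδF, hK1, hη, hfib⟩ := fiber h1 L hθ0 hK0 (le_max_left _ _)
    (fun C i j => (hKA C i j).trans (mul_le_mul_of_nonneg_right (le_max_right _ _) (nr_nonneg C)))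
  obtain ⟨K', hK', hJR⟩ := h2 P Q L (-L.K)
  obtain ⟨δ, hδ0, d1, d2, d3, d4, d5, d6⟩ : ∃ δ : ℝ, 0 < δ ∧ 1 * δ ≤ δF ∧ 1 * δ ≤ 1 ∧ 1 * δ ≤ L.r ∧ L.K * δ ≤ ε / 2 ∧
      L.K * δ ≤ ε / 2 * L.c4 ∧ K1 * δ ≤ θ := by
    have e0 : ∀ᶠ δ : ℝ in 𝓝[>] 0, 0 < δ := self_mem_nhdsWithin
    exact (e0.and ((ev_small 1 δF hδF).and ((ev_small 1 1 one_pos).and ((ev_small 1 L.r L.rpos).and
      ((ev_small L.K (ε / 2) (by positivity)).and ((ev_small L.K (ε / 2 * L.c4) (by positivity)).and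
      (ev_small K1 θ hθ0))))))).exists
  rw [one_mul] at d1 d2 d3
  refine ⟨δ, K1 + K', η, hδ0, by positivity, hη, ?_⟩
  intro g hg hgδ f hf hfs
  have hg1 : g ≤ 1 := hgδ.trans d2
  have hδ2 : δ ^ 2 ≤ δ := by nlinarith
  -- the function with the density
  set φ : (P → ℝ) × (Q → ℝ) → ℝ := fun x => f x * Real.sqrt (L.J x) with hφ
  have hφd' : ContDiff ℝ ∞ φ := hf.mul (L.Jsm.sqrt fun x => (L.Jpos x).ne')
  have hφd : ContDiff ℝ 1 φ := hφd'.of_le (by norm_cast)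
  have hfd : ContDiff ℝ 1 f := hf.of_le (by norm_cast)
  have hφz : ∀ x, φ x ≠ 0 → nx x < δ ^ 2 := fun x hx => hfs x (left_ne_zero_of_mul hx)
  have hfsc : HasCompactSupport f := cs_nx (d := δ ^ 2) fun x hx => (hfs x hx).le
  have hφs : HasCompactSupport φ := cs_nx (d := δ ^ 2) fun x hx => (hφz x hx).le
  have hφc : CC φ := ⟨hφd.continuous, hφs⟩
  have hfc : CC f := ⟨hfd.continuous, hfsc⟩
  have hJ : ∀ x, f x ^ 2 * L.J x = φ x ^ 2 := by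
    intro x
    rw [hφ]
    simp only
    rw [mul_pow, Real.sq_sqrt (L.Jpos x).le]
  have hr2 : δ ^ 2 ≤ L.r ^ 2 := pow_le_pow_left₀ hδ0.le d3 2
  have hjr := (abs_le.1 (hJR f hf fun x hx => (hfs x hx).trans_le hr2)).1
  simp_rw [hJ] at hjr ⊢
  -- continuity
  have kv := L.cont
  have kJ := L.Jsm.continuous
  have kw := L.wcont
  have knx : Continuous (nx : (P → ℝ) × (Q → ℝ) → ℝ) := cont_nx
  have kn2 := cont_n2 (ι := P)
  have knr := cont_nr (ι := P)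
  have cfC := gC_cc hfd hfsc
  have cfA := gA_cc hfd hfsc
  have cC := gC_cc hφd hφs
  have cA := gA_cc hφd hφs
  have c2 := hφc.sq
  -- step a
  have b1 : CC (fun x => (1 + -L.K * nx x) * (gC f x + gA f x) * L.J x) :=
    CC.mulR (CC.mulL (by fun_prop) (cfC.add cfA)) kJ
  have b2 : CC (fun x => L.w x * φ x ^ 2) := CC.mulL kw c2
  have ea : ∫ x, (g ^ 2 / 2 * (1 - L.K * nx x) * (gC f x + gA f x) + 1 / g ^ 2 * L.w x * f x ^ 2) * L.J x =
      g ^ 2 / 2 * (∫ x, (1 + -L.K * nx x) * (gC f x + gA f x) * L.J x) + 1 / g ^ 2 * ∫ x, L.w x * φ x ^ 2 := by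
    rw [← integral_const_mul, ← integral_const_mul, ← integral_add (b1.int.const_mul _) (b2.int.const_mul _)]
    refine integral_congr_ae (Eventually.of_forall fun x => ?_)
    simp only
    rw [← hJ x]
    ring
  -- step b
  have b3 : CC (fun x => (1 + -L.K * nx x) * (gC φ x + gA φ x)) := CC.mulL (by fun_prop) (cC.add cA)
  have b4 : CC (fun x => g ^ 2 / 2 * (1 + -L.K * nx x) * gC φ x + 1 / g ^ 2 * (L.c4 - L.K * nr x.1) * L.v x.1 * φ x ^ 2) :=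
    (CC.mulL (by fun_prop) cC).add (CC.mulL (by fun_prop) c2)
  have b5 : CC (fun x => g ^ 2 / 2 * (1 + -L.K * nx x) * gA φ x + 1 / g ^ 2 * (L.w x - (L.c4 - L.K * nr x.1) * L.v x.1) *
        φ x ^ 2) :=
    (CC.mulL (by fun_prop) cA).add (CC.mulL (by fun_prop) c2)
  have eb : g ^ 2 / 2 * (∫ x, (1 + -L.K * nx x) * (gC φ x + gA φ x)) + 1 / g ^ 2 * (∫ x, L.w x * φ x ^ 2) =
      (∫ x, (g ^ 2 / 2 * (1 + -L.K * nx x) * gC φ x + 1 / g ^ 2 * (L.c4 - L.K * nr x.1) * L.v x.1 * φ x ^ 2)) +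
      ∫ x, (g ^ 2 / 2 * (1 + -L.K * nx x) * gA φ x + 1 / g ^ 2 * (L.w x - (L.c4 - L.K * nr x.1) * L.v x.1) * φ x ^ 2) := by
    rw [← integral_const_mul, ← integral_const_mul, ← integral_add (b3.int.const_mul _) (b2.int.const_mul _),
      ← integral_add b4.int b5.int]
    refine integral_congr_ae (Eventually.of_forall fun x => ?_)
    simp only
    ring
  -- step c
  obtain ⟨t1, t2, t3, t4, -⟩ := h4 P Q L g hg f hf hfsc
  have hT : CC (L.T g f) := ⟨t1.continuous, t2⟩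
  have b6 : CC (fun x : (P → ℝ) × (Q → ℝ) => (L.e0 - θ * nr x.1 - K1 * (n2 x.1 + g)) * φ x ^ 2) :=
    CC.mulL (by fun_prop) c2
  have ec : (∫ x, (L.e0 - θ * nr x.1 - K1 * (n2 x.1 + g)) * φ x ^ 2) + η * ((∫ x, φ x ^ 2) - ∫ C, L.T g f C ^ 2) ≤
      ∫ x, (g ^ 2 / 2 * (1 + -L.K * nx x) * gA φ x + 1 / g ^ 2 * (L.w x - (L.c4 - L.K * nr x.1) * L.v x.1) * φ x ^ 2) := by
    have i1 : Integrable (fun C => η * ((∫ a, φ (C, a) ^ 2) - L.T g f C ^ 2)) := (c2.intL.sub hT.sq.int).const_mul _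
    rw [b6.fub, c2.fub, b5.fub, ← integral_sub c2.intL hT.sq.int, ← integral_const_mul, ← integral_add b6.intL i1]
    refine integral_mono (b6.intL.add i1) b5.intL fun C => ?_
    exact hfib δ hδ0 d1 d3 g hg hgδ φ hφd hφz C
  -- step d
  set X : ℝ := ∫ x, (g ^ 2 / 2 * gC φ x + L.c4 / g ^ 2 * L.v x.1 * φ x ^ 2) with hX
  have b7 : CC (fun x : (P → ℝ) × (Q → ℝ) => g ^ 2 / 2 * gC φ x + L.c4 / g ^ 2 * L.v x.1 * φ x ^ 2) :=
    (CC.constL _ cC).add (CC.mulL (by fun_prop) c2)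
  have hnrδ : ∀ x : (P → ℝ) × (Q → ℝ), nx x ≤ δ ^ 2 → nr x.1 ≤ δ := by
    intro x hx
    have h5 : nr x.1 ^ 2 ≤ δ ^ 2 := by
      rw [nr_sq]
      unfold nx at hx
      have := n2_nonneg x.2
      linarith
    exact (abs_le_of_sq_le_sq' h5 hδ0.le).2
  have ed : (1 - ε / 2) * X ≤
      ∫ x, (g ^ 2 / 2 * (1 + -L.K * nx x) * gC φ x + 1 / g ^ 2 * (L.c4 - L.K * nr x.1) * L.v x.1 * φ x ^ 2) := by
    rw [hX, ← integral_const_mul]
    refine integral_mono (b7.int.const_mul _) b4.int fun x => ?_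
    show (1 - ε / 2) * (g ^ 2 / 2 * gC φ x + L.c4 / g ^ 2 * L.v x.1 * φ x ^ 2) ≤
      g ^ 2 / 2 * (1 + -L.K * nx x) * gC φ x + 1 / g ^ 2 * (L.c4 - L.K * nr x.1) * L.v x.1 * φ x ^ 2
    have p1 : (1 - ε / 2) * (g ^ 2 / 2 * gC φ x) ≤ g ^ 2 / 2 * (1 + -L.K * nx x) * gC φ x := by
      by_cases hz : fderiv ℝ φ x = 0
      · have : gC φ x = 0 := by
          unfold gC
          rw [hz]
          simp
        rw [this]
        simp
      · have h5 := fd_nx hφz hz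
        have h6 : L.K * nx x ≤ ε / 2 := (mul_le_mul_of_nonneg_left (h5.trans hδ2) hKL).trans d4
        have h7 := gC_nonneg φ x
        have h8 : 0 ≤ g ^ 2 / 2 * gC φ x := by positivity
        calc (1 - ε / 2) * (g ^ 2 / 2 * gC φ x) ≤ (1 + -L.K * nx x) * (g ^ 2 / 2 * gC φ x) :=
              mul_le_mul_of_nonneg_right (by linarith) h8
          _ = g ^ 2 / 2 * (1 + -L.K * nx x) * gC φ x := by ring
    have p2 : (1 - ε / 2) * (L.c4 / g ^ 2 * L.v x.1 * φ x ^ 2) ≤ 1 / g ^ 2 * (L.c4 - L.K * nr x.1) * L.v x.1 * φ x ^ 2 := by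
      by_cases hz : φ x = 0
      · rw [hz]; simp
      · have h5 := hnrδ x (hφz x hz).le
        have h6 : L.K * nr x.1 ≤ ε / 2 * L.c4 := (mul_le_mul_of_nonneg_left h5 hKL).trans d5
        have h7 := L.nonneg x.1
        calc (1 - ε / 2) * (L.c4 / g ^ 2 * L.v x.1 * φ x ^ 2) = ((1 - ε / 2) * L.c4) * (1 / g ^ 2 * L.v x.1 * φ x ^ 2) := by ring
          _ ≤ (L.c4 - L.K * nr x.1) * (1 / g ^ 2 * L.v x.1 * φ x ^ 2) :=
              mul_le_mul_of_nonneg_right (by linarith) (by positivity)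
          _ = 1 / g ^ 2 * (L.c4 - L.K * nr x.1) * L.v x.1 * φ x ^ 2 := by ring
    linarith
  -- step e
  have b8 : CC (fun x : (P → ℝ) × (Q → ℝ) => nr x.1 * φ x ^ 2) := CC.mulL (by fun_prop) c2
  have ee : (L.e0 - K1 * g) * (∫ x, φ x ^ 2) - (θ + K1 * δ) * (∫ x, nr x.1 * φ x ^ 2) ≤
      ∫ x, (L.e0 - θ * nr x.1 - K1 * (n2 x.1 + g)) * φ x ^ 2 := by
    rw [← integral_const_mul, ← integral_const_mul, ← integral_sub (c2.int.const_mul _) (b8.int.const_mul _)]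
    refine integral_mono ((c2.int.const_mul _).sub (b8.int.const_mul _)) b6.int fun x => ?_
    show (L.e0 - K1 * g) * φ x ^ 2 - (θ + K1 * δ) * (nr x.1 * φ x ^ 2) ≤ (L.e0 - θ * nr x.1 - K1 * (n2 x.1 + g)) * φ x ^ 2
    by_cases hz : φ x = 0
    · rw [hz]; simp
    · have h5 := hnrδ x (hφz x hz).le
      have h6 : n2 x.1 ≤ δ * nr x.1 := by
        rw [← nr_sq]
        have := nr_nonneg x.1
        nlinarith
      have h7 : K1 * n2 x.1 ≤ K1 * (δ * nr x.1) := mul_le_mul_of_nonneg_left h6 hK1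
      have h8 : (L.e0 - K1 * g) - (θ + K1 * δ) * nr x.1 ≤ L.e0 - θ * nr x.1 - K1 * (n2 x.1 + g) := by linarith
      calc (L.e0 - K1 * g) * φ x ^ 2 - (θ + K1 * δ) * (nr x.1 * φ x ^ 2) =
          ((L.e0 - K1 * g) - (θ + K1 * δ) * nr x.1) * φ x ^ 2 := by ring
        _ ≤ _ := mul_le_mul_of_nonneg_right h8 (sq_nonneg _)
  -- steps f, g
  have ef := X_ge_I1 h3 L hg hφd hφs
  have eg := X_ge_Y h4 L hg hf hfsc hφ hφd hφs
  rw [← hX] at ef eg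
  set Y : ℝ := ∫ C, (g ^ 2 / 2 * g2 (L.T g f) C + L.c4 / g ^ 2 * L.v C * L.T g f C ^ 2) with hY
  set I0 : ℝ := ∫ x, φ x ^ 2 with hI0
  set I1 : ℝ := ∫ x, nr x.1 * φ x ^ 2 with hI1
  set TT : ℝ := ∫ C, L.T g f C ^ 2 with hTT
  have hI00 : 0 ≤ I0 := integral_nonneg fun x => sq_nonneg _
  have hI10 : 0 ≤ I1 := integral_nonneg fun x => mul_nonneg (nr_nonneg _) (sq_nonneg _)
  rw [ea]
  have s1 : g ^ 2 / 2 * (∫ x, (1 + -L.K * nx x) * (gC f x + gA f x) * L.J x) ≥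
      g ^ 2 / 2 * (∫ x, (1 + -L.K * nx x) * (gC φ x + gA φ x)) - g ^ 2 / 2 * (K' * I0) := by
    have h5 : (∫ x, (1 + -L.K * nx x) * (gC φ x + gA φ x)) - K' * I0 ≤
        ∫ x, (1 + -L.K * nx x) * (gC f x + gA f x) * L.J x := by
      have := hjr
      linarith
    have h6 := mul_le_mul_of_nonneg_left h5 (show 0 ≤ g ^ 2 / 2 by positivity)
    linarith
  have s2 : g ^ 2 / 2 * (K' * I0) ≤ K' * g * I0 := by
    have h5 : g ^ 2 / 2 ≤ g := by nlinarith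
    have h6 : 0 ≤ K' * I0 := by positivity
    calc g ^ 2 / 2 * (K' * I0) ≤ g * (K' * I0) := mul_le_mul_of_nonneg_right h5 h6
      _ = K' * g * I0 := by ring
  have s3 : (θ + K1 * δ) * I1 ≤ ε / 2 * X := by
    have h5 : θ + K1 * δ ≤ ε / 2 * (Real.sqrt L.c4 * L.κ) := by
      have : θ + θ = ε / 2 * (Real.sqrt L.c4 * L.κ) := by rw [hθ]; ring
      linarith
    calc (θ + K1 * δ) * I1 ≤ ε / 2 * (Real.sqrt L.c4 * L.κ) * I1 := mul_le_mul_of_nonneg_right h5 hI10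
      _ = ε / 2 * (Real.sqrt L.c4 * L.κ * I1) := by ring
      _ ≤ ε / 2 * X := mul_le_mul_of_nonneg_left ef (by positivity)
  have s4 : (1 - ε) * Y ≤ (1 - ε) * X := mul_le_mul_of_nonneg_left eg (by linarith)
  have s5 : (L.e0 - (K1 + K') * g) * I0 = (L.e0 - K1 * g) * I0 - K' * g * I0 := by ring
  have s6 : (1 - ε / 2) * X = (1 - ε) * X + ε / 2 * X := by ring
  linarith

end

theorem t_LLB (h1 : S_FIB) (h2 : S_JR) (h3 : S_SCS) (h4 : S_TSM) : S_LLB := by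
  intro P Q _ _ _ _ L ε hε
  obtain ⟨δ, K, η, hδ, hK, hη, h⟩ := llb_core h1 h2 h3 h4 L (ε := min ε 1) (by positivity) (min_le_right _ _)
  refine ⟨δ, K, η, hδ, hK, hη, fun g hg hgδ f hf hfs => ?_⟩
  refine le_trans ?_ (h g hg hgδ f hf hfs)
  have h0 : 0 ≤ ∫ C, (g ^ 2 / 2 * g2 (L.T g f) C + L.c4 / g ^ 2 * L.v C * L.T g f C ^ 2) := by
    refine integral_nonneg fun C => ?_
    have h1 := g2_nonneg (L.T g f) C
    have h2 := L.nonneg C
    have h3 := L.c4pos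
    show 0 ≤ g ^ 2 / 2 * g2 (L.T g f) C + L.c4 / g ^ 2 * L.v C * L.T g f C ^ 2
    positivity
  have h1 : (1 - ε) * (∫ C, (g ^ 2 / 2 * g2 (L.T g f) C + L.c4 / g ^ 2 * L.v C * L.T g f C ^ 2)) ≤
      (1 - min ε 1) * (∫ C, (g ^ 2 / 2 * g2 (L.T g f) C + L.c4 / g ^ 2 * L.v C * L.T g f C ^ 2)) :=
    mul_le_mul_of_nonneg_right (by linarith [min_le_left ε 1]) h0
  linarith

end

end Pool.Agent.Q61.LU
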