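import Pool.Agent.Q61.LU.UPBa

set_option autoImplicit false

/-! Project LU (helper77), job UPB: the upper bound by trial functions. -/

namespace Pool.Agent.Q61.LU

open MeasureTheory Set Filter Topology
open scoped ContDiff
open Pool.Agent.Q77.LU

noncomputable section

section
variable {P Q : Type} [Fintype P] [DecidableEq P] [Fintype Q] [DecidableEq Q]

theorem cutb_zero {t : ℝ} (h : 1 ≤ t) : cutb t = 0 := by
  unfold cutb
  exact Real.smoothTransition.zero_of_nonpos (by linarith)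

theorem trial_eq (L : Loc P Q) (g δ : ℝ) (ψ : (P → ℝ) → ℝ) (x : (P → ℝ) × (Q → ℝ)) :
    L.trial g δ ψ x = (Real.sqrt (L.J x))⁻¹ * (phi ((L.s g) ^ (-(Fintype.card P : ℝ) / 2)) (L.s g) ψ x.1 *
      (gau L.om g x.2 * cutb (4 * n2 x.2 / δ ^ 2))) := by
  unfold Loc.trial phi
  ring

theorem k_sq {s : ℝ} (hs : 0 < s) (p : ℕ) : (s ^ (-(p : ℝ) / 2)) ^ 2 * s ^ p = 1 := by
  rw [← Real.rpow_natCast (s ^ (-(p : ℝ) / 2)) 2, ← Real.rpow_mul hs.le, ← Real.rpow_natCast s p, ← Real.rpow_add hs]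
  have : -(p : ℝ) / 2 * ((2 : ℕ) : ℝ) + (p : ℝ) = 0 := by push_cast; ring
  rw [this, Real.rpow_zero]

theorem v_bd (L : Loc P Q) (R : ℝ) : ∃ V : ℝ, 0 ≤ V ∧ ∀ y, n2 y ≤ R ^ 2 → L.v y ≤ V := by
  have h1 : IsCompact (Metric.closedBall (0 : P → ℝ) (Real.sqrt (R ^ 2))) := isCompact_closedBall _ _
  obtain ⟨V, hV⟩ := h1.exists_bound_of_continuousOn L.cont.continuousOn
  refine ⟨max V 0, le_max_right _ _, fun y hy => ?_⟩
  have h2 : y ∈ Metric.closedBall (0 : P → ℝ) (Real.sqrt (R ^ 2)) := by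
    rw [mem_closedBall_zero_iff, pi_norm_le_iff_of_nonneg (Real.sqrt_nonneg _)]
    intro i
    rw [Real.norm_eq_abs]
    exact (abs_le_nr y i).trans (Real.sqrt_le_sqrt hy)
  have h3 := hV y h2
  rw [Real.norm_eq_abs] at h3
  exact ((le_abs_self _).trans h3).trans (le_max_left _ _)

end

theorem t_UPB (h1 : S_JR) (h2 : S_GM) : S_UPB := by
  intro P Q _ _ _ _ L δ R hδ hδr hR
  obtain ⟨KA, hKA0, hKA⟩ := A_bd L
  obtain ⟨V, hV0, hV⟩ := v_bd L R
  obtain ⟨K', hK'0, hJR⟩ := h1 P Q L L.K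
  obtain ⟨KG, hKG0, hGM⟩ := h2 Q L.om δ L.ompos hδ
  have hc4 := L.c4pos
  have hKL := L.K0
  set B : ℝ := 1 + 1 / L.c4 with hB
  set F : ℝ := 1 + L.c4 with hF
  have hB0 : 0 < B := by positivity
  have hF0 : 0 < F := by positivity
  set k1 : ℝ := L.K * R ^ 2 / 2 + F * L.K * KG / 2 with hk1
  set k2 : ℝ := L.K * KG * R ^ 2 * B / 2 + L.K * KG / 2 + 1 / 2 * Fintype.card Q * KA * R * KG * B +
    L.K * (R * V * F / L.c4 + R ^ 2 * KG * B + KG) + KG + K' / 2 with hk2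
  have hk10 : 0 ≤ k1 := by positivity
  have hk20 : 0 ≤ k2 := by positivity
  refine ⟨k1 + k2, min 1 (δ ^ 2 / (2 * R ^ 2 * B)), by positivity, by positivity, ?_⟩
  intro g hg hgg ψ hψ hψs
  have hg1 : g ≤ 1 := hgg.trans (min_le_left _ _)
  have hgq : g ^ 2 ≤ g := by nlinarith
  have hg2 : g * (2 * R ^ 2 * B) ≤ δ ^ 2 := by
    have := hgg.trans (min_le_right _ _)
    rwa [le_div_iff₀ (by positivity)] at this
  obtain ⟨hs, hc6, hE0, hE2, hE4, hs2, hs1, hEF, hsE⟩ := scale_facts L hg hg1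
  rw [← hB] at hs2 hs1
  rw [← hF] at hEF hsE
  set s : ℝ := L.s g with hsdef
  set E : ℝ := L.E g with hEdef
  set k : ℝ := s ^ (-(Fintype.card P : ℝ) / 2) with hkdef
  have hk : k ^ 2 * s ^ Fintype.card P = 1 := k_sq hs _
  set φ : (P → ℝ) → ℝ := phi k s ψ with hφdef
  set G : (Q → ℝ) → ℝ := fun a => gau L.om g a * cutb (4 * n2 a / δ ^ 2) with hGdef
  obtain ⟨G1, G2, G3, G4, G5, G6, G7, G8, G9, G10, G11⟩ := hGM g hg hg1 G rfl
  have hψ1 : ContDiff ℝ 1 ψ := hψ.of_le (by norm_cast)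
  have hψsc : HasCompactSupport ψ := cs_n2 (d := R ^ 2) hψs
  have hψc : CC ψ := ⟨hψ.continuous, hψsc⟩
  have hφ : ContDiff ℝ ∞ φ := phi_smooth hψ
  have hφ1 : ContDiff ℝ 1 φ := hφ.of_le (by norm_cast)
  have hφs : ∀ C, φ C ≠ 0 → n2 C ≤ s ^ 2 * R ^ 2 := phi_supp hs hψs
  have hφsc : HasCompactSupport φ := cs_n2 hφs
  have hφc : CC φ := ⟨hφ.continuous, hφsc⟩
  have hG1 : ContDiff ℝ 1 G := G1.of_le (by norm_cast)
  have hGc : CC G := ⟨G1.continuous, G2⟩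
  have hGs : ∀ a, G a ≠ 0 → n2 a < δ ^ 2 / 4 := by
    intro a ha
    by_contra h
    rw [not_lt] at h
    apply ha
    rw [hGdef]
    simp only
    rw [cutb_zero, mul_zero]
    rw [le_div_iff₀ (by positivity)]
    linarith
  have hsR : s ^ 2 * R ^ 2 ≤ δ ^ 2 / 2 := by
    calc s ^ 2 * R ^ 2 ≤ (g * B) * R ^ 2 := mul_le_mul_of_nonneg_right hs2 (by positivity)
      _ = g * (2 * R ^ 2 * B) / 2 := by ring
      _ ≤ δ ^ 2 / 2 := by linarith
  have hnx : ∀ C a, φ C ≠ 0 → G a ≠ 0 → nx (C, a) < δ ^ 2 := by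
    intro C a hC ha
    have e1 := hφs C hC
    have e2 := hGs a ha
    have e3 : 0 < δ ^ 2 := by positivity
    show n2 C + n2 a < δ ^ 2
    linarith
  have hδr2 : δ ^ 2 ≤ L.r ^ 2 := pow_le_pow_left₀ hδ.le hδr 2
  have htr : ∀ x, L.trial g δ ψ x = (Real.sqrt (L.J x))⁻¹ * (φ x.1 * G x.2) := fun x => trial_eq L g δ ψ x
  have hJp : ∀ x, 0 < Real.sqrt (L.J x) := fun x => Real.sqrt_pos.2 (L.Jpos x)
  have htJ : ∀ x, L.trial g δ ψ x * Real.sqrt (L.J x) = φ x.1 * G x.2 := by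
    intro x
    rw [htr, mul_comm, ← mul_assoc, mul_inv_cancel₀ (hJp x).ne', one_mul]
  have htsm : ContDiff ℝ ∞ (L.trial g δ ψ) := by
    have e1 : L.trial g δ ψ = fun x => (Real.sqrt (L.J x))⁻¹ * (φ x.1 * G x.2) := funext htr
    rw [e1]
    exact ((L.Jsm.sqrt fun x => (L.Jpos x).ne').inv fun x => (hJp x).ne').mul
      ((hφ.comp contDiff_fst).mul (G1.comp contDiff_snd))
  have hts : ∀ x, L.trial g δ ψ x ≠ 0 → nx x < δ ^ 2 := by
    intro x hx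
    rw [htr] at hx
    have e1 := right_ne_zero_of_mul hx
    exact hnx x.1 x.2 (left_ne_zero_of_mul e1) (right_ne_zero_of_mul e1)
  have ht2 : ∀ x, L.trial g δ ψ x ^ 2 * L.J x = φ x.1 ^ 2 * G x.2 ^ 2 := by
    intro x
    calc L.trial g δ ψ x ^ 2 * L.J x = (L.trial g δ ψ x * Real.sqrt (L.J x)) ^ 2 := by
          rw [mul_pow, Real.sq_sqrt (L.Jpos x).le]
      _ = φ x.1 ^ 2 * G x.2 ^ 2 := by rw [htJ]; ring
  -- integrals of `φ`
  set Ψ : ℝ := ∫ C, ψ C ^ 2 with hΨ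
  set D : ℝ := ∫ C, g2 ψ C with hD
  set Iv : ℝ := ∫ C, L.v C * ψ C ^ 2 with hIv
  have hΨ0 : 0 ≤ Ψ := integral_nonneg fun C => sq_nonneg _
  have hD0 : 0 ≤ D := integral_nonneg fun C => g2_nonneg _ _
  have hIv0 : 0 ≤ Iv := integral_nonneg fun C => mul_nonneg (L.nonneg C) (sq_nonneg _)
  have eΨ : ∫ C, φ C ^ 2 = Ψ := by
    rw [hΨ]
    refine Eq.trans ?_ (sc_int hs hk (fun C => ψ C ^ 2))
    refine integral_congr_ae (Eventually.of_forall fun C => ?_)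
    show (k * ψ (s⁻¹ • C)) ^ 2 = k ^ 2 * ψ (s⁻¹ • C) ^ 2
    ring
  have eD : g ^ 2 * ∫ C, g2 φ C = E * D := by
    have e1 : ∫ C, g2 φ C = s⁻¹ ^ 2 * D := by
      rw [hD, ← integral_const_mul]
      refine Eq.trans ?_ (sc_int hs hk (fun C => s⁻¹ ^ 2 * g2 ψ C))
      refine integral_congr_ae (Eventually.of_forall fun C => ?_)
      show g2 φ C = k ^ 2 * (s⁻¹ ^ 2 * g2 ψ (s⁻¹ • C))
      rw [hφdef, phi_g2 hψ1]
    rw [e1, ← hE2]
    field_simp
  have eIv : ∫ C, L.v C * φ C ^ 2 = s ^ 4 * Iv := by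
    rw [hIv, ← integral_const_mul]
    refine Eq.trans ?_ (sc_int hs hk (fun C => s ^ 4 * (L.v C * ψ C ^ 2)))
    refine integral_congr_ae (Eventually.of_forall fun C => ?_)
    show L.v C * (k * ψ (s⁻¹ • C)) ^ 2 = k ^ 2 * (s ^ 4 * (L.v (s⁻¹ • C) * ψ (s⁻¹ • C) ^ 2))
    have e1 : L.v C = s ^ 4 * L.v (s⁻¹ • C) := by
      rw [← L.hom, smul_smul, mul_inv_cancel₀ hs.ne', one_smul]
    rw [e1]
    ring
  have hI2 : ∫ x, L.trial g δ ψ x ^ 2 * L.J x = Ψ * ∫ a, G a ^ 2 := by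
    simp_rw [ht2]
    rw [prod_int (fun C => φ C ^ 2) (fun a => G a ^ 2), eΨ]
  have hm0 : 0 ≤ ∫ a, G a ^ 2 := integral_nonneg fun a => sq_nonneg _
  refine ⟨htsm, hts, ?_, ?_, ?_⟩
  · rw [hI2, mul_comm]
    refine mul_le_mul_of_nonneg_left (le_trans ?_ G3) hΨ0
    have e1 : KG ≤ k1 + k2 := by
      rw [hk2]
      have : 0 ≤ L.K * KG * R ^ 2 * B / 2 + L.K * KG / 2 + 1 / 2 * Fintype.card Q * KA * R * KG * B +
        L.K * (R * V * F / L.c4 + R ^ 2 * KG * B + KG) + K' / 2 := by positivity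
      linarith
    have e2 : KG * g ^ 2 ≤ (k1 + k2) * g := by
      have : g ^ 2 ≤ g := hgq
      calc KG * g ^ 2 ≤ KG * g := mul_le_mul_of_nonneg_left this hKG0
        _ ≤ _ := mul_le_mul_of_nonneg_right e1 hg.le
    linarith
  · rw [hI2]
    calc Ψ * ∫ a, G a ^ 2 ≤ Ψ * 1 := mul_le_mul_of_nonneg_left G4 hΨ0
      _ = Ψ := mul_one _
  · -- the energy
    set f : (P → ℝ) × (Q → ℝ) → ℝ := L.trial g δ ψ with hf
    have hfd : ContDiff ℝ 1 f := htsm.of_le (by norm_cast)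
    have hfsc : HasCompactSupport f := cs_nx (d := δ ^ 2) fun x hx => (hts x hx).le
    have knx : Continuous (nx : (P → ℝ) × (Q → ℝ) → ℝ) := cont_nx
    have kJ := L.Jsm.continuous
    have kw := L.wcont
    have cfC := gC_cc hfd hfsc
    have cfA := gA_cc hfd hfsc
    have b1 : CC (fun x => (1 + L.K * nx x) * (gC f x + gA f x) * L.J x) :=
      CC.mulR (CC.mulL (by fun_prop) (cfC.add cfA)) kJ
    have b2 : CC (fun x : (P → ℝ) × (Q → ℝ) => L.w x * (φ x.1 ^ 2 * G x.2 ^ 2)) := CC.mulL kw (CC.prod hφc.sq hGc.sq)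
    have ea : ∫ x, (g ^ 2 / 2 * (1 + L.K * nx x) * (gC f x + gA f x) + 1 / g ^ 2 * L.w x * f x ^ 2) * L.J x =
        g ^ 2 / 2 * (∫ x, (1 + L.K * nx x) * (gC f x + gA f x) * L.J x) +
          1 / g ^ 2 * ∫ x : (P → ℝ) × (Q → ℝ), L.w x * (φ x.1 ^ 2 * G x.2 ^ 2) := by
      rw [← integral_const_mul, ← integral_const_mul, ← integral_add (b1.int.const_mul _) (b2.int.const_mul _)]
      refine integral_congr_ae (Eventually.of_forall fun x => ?_)
      simp only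
      rw [← ht2 x]
      ring
    have hjr := (abs_le.1 (hJR f htsm fun x hx => (hts x hx).trans_le hδr2)).2
    have hff : (fun z => f z * Real.sqrt (L.J z)) = fun z : (P → ℝ) × (Q → ℝ) => φ z.1 * G z.2 := funext htJ
    rw [hff] at hjr
    have hI2' : ∫ x, f x ^ 2 * L.J x = Ψ * ∫ a, G a ^ 2 := hI2
    rw [hI2'] at hjr
    have cgφ := g2_cc hφ1 hφsc
    have cgG := g2_cc hG1 G2
    have c1 : CC (fun x : (P → ℝ) × (Q → ℝ) => (1 + L.K * nx x) * (g2 φ x.1 * G x.2 ^ 2)) :=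
      CC.mulL (by fun_prop) (CC.prod cgφ hGc.sq)
    have c2 : CC (fun x : (P → ℝ) × (Q → ℝ) => (1 + L.K * nx x) * (φ x.1 ^ 2 * g2 G x.2)) :=
      CC.mulL (by fun_prop) (CC.prod hφc.sq cgG)
    have eb : ∫ x, (1 + L.K * nx x) * (gC (fun z : (P → ℝ) × (Q → ℝ) => φ z.1 * G z.2) x +
        gA (fun z : (P → ℝ) × (Q → ℝ) => φ z.1 * G z.2) x) =
        (∫ x : (P → ℝ) × (Q → ℝ), (1 + L.K * nx x) * (g2 φ x.1 * G x.2 ^ 2)) +
        ∫ x : (P → ℝ) × (Q → ℝ), (1 + L.K * nx x) * (φ x.1 ^ 2 * g2 G x.2) := by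
      rw [← integral_add c1.int c2.int]
      refine integral_congr_ae (Eventually.of_forall fun x => ?_)
      simp only
      rw [gC_prod hφ1 hG1, gA_prod hφ1 hG1]
      ring
    rw [eb] at hjr
    have t1 := T1_le hKL hφ1 hφsc hφs hGc
    have t2 := T2_le hKL hφc hφs hG1 G2
    have t3 := T3_le L hKA0 hKA hs hR hV0 hV hφc hφs hGc (fun C a hC ha => ((hnx C a hC ha).le.trans hδr2)) hg hKG0
      G4 G8 G9 G10 G11
    rw [ea]
    rw [eΨ] at t2 t3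
    rw [eIv] at t3
    set m0 : ℝ := ∫ a, G a ^ 2 with hm0def
    set m2 : ℝ := ∫ a, n2 a * G a ^ 2 with hm2def
    set e2 : ℝ := ∫ a, g2 G a with he2def
    set e4 : ℝ := ∫ a, n2 a * g2 G a with he4def
    set I1 : ℝ := ∫ C, g2 φ C with hI1def
    set q : ℝ := ∫ a, (∑ i, L.om i ^ 2 * a i ^ 2) * G a ^ 2 with hqdef
    set W : ℝ := ∫ x : (P → ℝ) × (Q → ℝ), L.w x * (φ x.1 ^ 2 * G x.2 ^ 2) with hW
    set A1 : ℝ := ∫ x : (P → ℝ) × (Q → ℝ), (1 + L.K * nx x) * (g2 φ x.1 * G x.2 ^ 2) with hA1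
    set A2 : ℝ := ∫ x : (P → ℝ) × (Q → ℝ), (1 + L.K * nx x) * (φ x.1 ^ 2 * g2 G x.2) with hA2
    set A0 : ℝ := ∫ x, (1 + L.K * nx x) * (gC f x + gA f x) * L.J x with hA0
    have hI10 : 0 ≤ I1 := integral_nonneg fun C => g2_nonneg _ _
    have he20 : 0 ≤ e2 := integral_nonneg fun C => g2_nonneg _ _
    have hm20 : 0 ≤ m2 := integral_nonneg fun a => mul_nonneg (n2_nonneg _) (sq_nonneg _)
    -- the oscillator
    have osc : g ^ 2 / 2 * e2 + 1 / (2 * g ^ 2) * q ≤ L.e0 + KG * g ^ 2 := by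
      have e1 : ∫ a, (g ^ 2 / 2 * g2 G a + 1 / (2 * g ^ 2) * (∑ i, L.om i ^ 2 * a i ^ 2) * G a ^ 2) =
          g ^ 2 / 2 * e2 + 1 / (2 * g ^ 2) * q := by
        have c3 : CC (fun a : Q → ℝ => (∑ i, L.om i ^ 2 * a i ^ 2) * G a ^ 2) := CC.mulL (by fun_prop) hGc.sq
        rw [he2def, hqdef, ← integral_const_mul, ← integral_const_mul, ← integral_add (cgG.int.const_mul _) (c3.int.const_mul _)]
        refine integral_congr_ae (Eventually.of_forall fun x => ?_)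
        simp only
        ring
      rw [← e1]
      exact G5
    -- the pieces
    have hqf : qf L.v ψ = 1 / 2 * D + Iv := by
      unfold qf
      have c3 : CC (fun C : P → ℝ => L.v C * ψ C ^ 2) := CC.mulL L.cont hψc.sq
      have c4 := g2_cc hψ1 hψsc
      rw [hD, hIv, ← integral_const_mul, ← integral_add (c4.int.const_mul _) c3.int]
    have hsum : ∫ C, (ψ C ^ 2 + g2 ψ C) = Ψ + D := integral_add hψc.sq.int (g2_cc hψ1 hψsc).int
    rw [hqf, hsum]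
    have p1 : g ^ 2 / 2 * A1 ≤ E / 2 * D + k1 * g * D := by
      have q1 : (1 + L.K * (s ^ 2 * R ^ 2)) * (I1 * m0) ≤ (1 + L.K * (s ^ 2 * R ^ 2)) * I1 := by
        refine mul_le_mul_of_nonneg_left ?_ (by positivity)
        calc I1 * m0 ≤ I1 * 1 := mul_le_mul_of_nonneg_left G4 hI10
          _ = I1 := mul_one _
      have q2 : L.K * (I1 * m2) ≤ L.K * (I1 * (KG * g ^ 2)) :=
        mul_le_mul_of_nonneg_left (mul_le_mul_of_nonneg_left G8 hI10) hKL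
      have q3 : A1 ≤ (1 + L.K * (s ^ 2 * R ^ 2) + L.K * KG * g ^ 2) * I1 := by
        refine t1.trans ((add_le_add q1 q2).trans (le_of_eq ?_))
        ring
      have q4 : g ^ 2 / 2 * A1 ≤ g ^ 2 / 2 * ((1 + L.K * (s ^ 2 * R ^ 2) + L.K * KG * g ^ 2) * I1) :=
        mul_le_mul_of_nonneg_left q3 (by positivity)
      have q5 : g ^ 2 / 2 * ((1 + L.K * (s ^ 2 * R ^ 2) + L.K * KG * g ^ 2) * I1) =
          E / 2 * D + (L.K * R ^ 2 / 2 * (E * s ^ 2) + L.K * KG / 2 * (E * g ^ 2)) * D := by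
        calc g ^ 2 / 2 * ((1 + L.K * (s ^ 2 * R ^ 2) + L.K * KG * g ^ 2) * I1) =
            1 / 2 * (1 + L.K * (s ^ 2 * R ^ 2) + L.K * KG * g ^ 2) * (g ^ 2 * I1) := by ring
          _ = 1 / 2 * (1 + L.K * (s ^ 2 * R ^ 2) + L.K * KG * g ^ 2) * (E * D) := by rw [eD]
          _ = _ := by ring
      rw [q5, hE2] at q4
      have q6 : L.K * R ^ 2 / 2 * g ^ 2 + L.K * KG / 2 * (E * g ^ 2) ≤ k1 * g := by
        have r1 : g ^ 2 ≤ g := hgq
        have r2 : L.K * R ^ 2 / 2 * g ^ 2 ≤ L.K * R ^ 2 / 2 * g := mul_le_mul_of_nonneg_left r1 (by positivity)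
        have r3 : E * g ^ 2 ≤ F * g := mul_le_mul hEF r1 (by positivity) hF0.le
        have r4 : L.K * KG / 2 * (E * g ^ 2) ≤ L.K * KG / 2 * (F * g) := mul_le_mul_of_nonneg_left r3 (by positivity)
        have r5 : k1 * g = L.K * R ^ 2 / 2 * g + L.K * KG / 2 * (F * g) := by rw [hk1]; ring
        linarith
      have q7 := mul_le_mul_of_nonneg_right q6 hD0
      linarith
    have p2 : g ^ 2 / 2 * A2 ≤ g ^ 2 / 2 * (Ψ * e2) + (L.K * KG * R ^ 2 * B / 2 + L.K * KG / 2) * g * Ψ := by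
      have q1 : L.K * (s ^ 2 * R ^ 2) * (Ψ * e2) ≤ L.K * (s ^ 2 * R ^ 2) * (Ψ * (KG / g ^ 2)) :=
        mul_le_mul_of_nonneg_left (mul_le_mul_of_nonneg_left G6 hΨ0) (by positivity)
      have q2 : L.K * (Ψ * e4) ≤ L.K * (Ψ * KG) := mul_le_mul_of_nonneg_left (mul_le_mul_of_nonneg_left G7 hΨ0) hKL
      have q3 : A2 ≤ Ψ * e2 + L.K * (s ^ 2 * R ^ 2) * (Ψ * (KG / g ^ 2)) + L.K * (Ψ * KG) := by linarith
      have q4 := mul_le_mul_of_nonneg_left q3 (show 0 ≤ g ^ 2 / 2 by positivity)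
      have q5 : g ^ 2 / 2 * (Ψ * e2 + L.K * (s ^ 2 * R ^ 2) * (Ψ * (KG / g ^ 2)) + L.K * (Ψ * KG)) =
          g ^ 2 / 2 * (Ψ * e2) + (L.K * KG * R ^ 2 / 2 * s ^ 2 + L.K * KG / 2 * g ^ 2) * Ψ := by
        field_simp
        ring
      rw [q5] at q4
      have q6 : L.K * KG * R ^ 2 / 2 * s ^ 2 + L.K * KG / 2 * g ^ 2 ≤ (L.K * KG * R ^ 2 * B / 2 + L.K * KG / 2) * g := by
        have r1 : g ^ 2 ≤ g := hgq
        have r2 : L.K * KG * R ^ 2 / 2 * s ^ 2 ≤ L.K * KG * R ^ 2 / 2 * (g * B) := mul_le_mul_of_nonneg_left hs2 (by positivity)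
        have r3 : L.K * KG / 2 * g ^ 2 ≤ L.K * KG / 2 * g := mul_le_mul_of_nonneg_left r1 (by positivity)
        have r4 : (L.K * KG * R ^ 2 * B / 2 + L.K * KG / 2) * g = L.K * KG * R ^ 2 / 2 * (g * B) + L.K * KG / 2 * g := by ring
        linarith
      have q7 := mul_le_mul_of_nonneg_right q6 hΨ0
      linarith
    have p3 : 1 / g ^ 2 * W ≤ E * Iv + 1 / (2 * g ^ 2) * q * Ψ +
        (1 / 2 * Fintype.card Q * KA * R * KG * B + L.K * (R * V * F / L.c4 + R ^ 2 * KG * B + KG)) * g * Ψ := by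
      have q1 := mul_le_mul_of_nonneg_left t3 (show 0 ≤ 1 / g ^ 2 by positivity)
      have hs5 : s ^ 5 / g ^ 2 = s * E / L.c4 := by
        rw [div_eq_div_iff (by positivity) (by positivity)]
        calc s ^ 5 * L.c4 = s * (L.c4 * s ^ 4) := by ring
          _ = s * E * g ^ 2 := by rw [hE4]; ring
      have q2 : 1 / g ^ 2 * (L.c4 * (s ^ 4 * Iv) + (1 / 2 * q +
          (1 / 2 * (Fintype.card Q * (KA * (s * R) * (KG * g ^ 4))) + L.K * (s * R * (s ^ 4 * V) + s ^ 2 * R ^ 2 * (KG * g ^ 2) +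
          KG * g ^ 3))) * Ψ) = E * Iv + 1 / (2 * g ^ 2) * q * Ψ + (1 / 2 * Fintype.card Q * KA * R * KG * (s * g ^ 2) +
            L.K * (R * V * (s ^ 5 / g ^ 2) + R ^ 2 * KG * s ^ 2 + KG * g)) * Ψ := by
        have r1 : 1 / g ^ 2 * (L.c4 * (s ^ 4 * Iv)) = E * Iv := by
          calc 1 / g ^ 2 * (L.c4 * (s ^ 4 * Iv)) = 1 / g ^ 2 * ((L.c4 * s ^ 4) * Iv) := by ring
            _ = 1 / g ^ 2 * (E * g ^ 2 * Iv) := by rw [hE4]
            _ = E * Iv := by field_simp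
        rw [mul_add, r1]
        field_simp
        ring
      rw [q2, hs5] at q1
      have r1 : g ^ 2 ≤ g := hgq
      have q3 : s * g ^ 2 ≤ B * g := mul_le_mul hs1 r1 (by positivity) hB0.le
      have q4 : s * E / L.c4 ≤ g * F / L.c4 := div_le_div_of_nonneg_right hsE hc4.le
      have q5 : 1 / 2 * Fintype.card Q * KA * R * KG * (s * g ^ 2) +
            L.K * (R * V * (s * E / L.c4) + R ^ 2 * KG * s ^ 2 + KG * g) ≤
          (1 / 2 * Fintype.card Q * KA * R * KG * B + L.K * (R * V * F / L.c4 + R ^ 2 * KG * B + KG)) * g := by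
        have r2 : 1 / 2 * Fintype.card Q * KA * R * KG * (s * g ^ 2) ≤ 1 / 2 * Fintype.card Q * KA * R * KG * (B * g) :=
          mul_le_mul_of_nonneg_left q3 (by positivity)
        have r3 : R * V * (s * E / L.c4) ≤ R * V * (g * F / L.c4) := mul_le_mul_of_nonneg_left q4 (by positivity)
        have r4 : R ^ 2 * KG * s ^ 2 ≤ R ^ 2 * KG * (g * B) := mul_le_mul_of_nonneg_left hs2 (by positivity)
        have r5 : L.K * (R * V * (s * E / L.c4) + R ^ 2 * KG * s ^ 2 + KG * g) ≤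
            L.K * (R * V * (g * F / L.c4) + R ^ 2 * KG * (g * B) + KG * g) := mul_le_mul_of_nonneg_left (by linarith) hKL
        have r6 : (1 / 2 * Fintype.card Q * KA * R * KG * B + L.K * (R * V * F / L.c4 + R ^ 2 * KG * B + KG)) * g =
            1 / 2 * Fintype.card Q * KA * R * KG * (B * g) +
            L.K * (R * V * (g * F / L.c4) + R ^ 2 * KG * (g * B) + KG * g) := by ring
        linarith
      have q6 := mul_le_mul_of_nonneg_right q5 hΨ0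
      linarith
    have p4 : g ^ 2 / 2 * A0 ≤ g ^ 2 / 2 * (A1 + A2) + K' / 2 * g * Ψ := by
      have q1 : A0 ≤ A1 + A2 + K' * (Ψ * m0) := by linarith
      have q2 : K' * (Ψ * m0) ≤ K' * Ψ := by
        refine mul_le_mul_of_nonneg_left ?_ hK'0
        calc Ψ * m0 ≤ Ψ * 1 := mul_le_mul_of_nonneg_left G4 hΨ0
          _ = Ψ := mul_one _
      have q3 := mul_le_mul_of_nonneg_left (q1.trans (add_le_add_right q2 _)) (show 0 ≤ g ^ 2 / 2 by positivity)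
      have q4 : g ^ 2 / 2 * (K' * Ψ) ≤ K' / 2 * g * Ψ := by
        have r1 : g ^ 2 ≤ g := hgq
        have r2 : 0 ≤ K' * Ψ := mul_nonneg hK'0 hΨ0
        calc g ^ 2 / 2 * (K' * Ψ) ≤ g / 2 * (K' * Ψ) := mul_le_mul_of_nonneg_right (by linarith) r2
          _ = K' / 2 * g * Ψ := by ring
      have q5 : g ^ 2 / 2 * (A1 + A2 + K' * Ψ) = g ^ 2 / 2 * (A1 + A2) + g ^ 2 / 2 * (K' * Ψ) := by ring
      linarith
    have p5 : (g ^ 2 / 2 * e2 + 1 / (2 * g ^ 2) * q) * Ψ ≤ L.e0 * Ψ + KG * g * Ψ := by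
      have r1 : g ^ 2 ≤ g := hgq
      have r2 : KG * g ^ 2 ≤ KG * g := mul_le_mul_of_nonneg_left r1 hKG0
      have r3 := mul_le_mul_of_nonneg_right (osc.trans (add_le_add_right r2 _)) hΨ0
      linarith
    have p6 : k2 * g * Ψ = (L.K * KG * R ^ 2 * B / 2 + L.K * KG / 2) * g * Ψ +
        (1 / 2 * Fintype.card Q * KA * R * KG * B + L.K * (R * V * F / L.c4 + R ^ 2 * KG * B + KG)) * g * Ψ +
        KG * g * Ψ + K' / 2 * g * Ψ := by
      rw [hk2]; ring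
    have p7 : k1 * g * D + k2 * g * Ψ ≤ (k1 + k2) * g * (Ψ + D) := by
      have r1 : 0 ≤ k1 * g * Ψ := by positivity
      have r2 : 0 ≤ k2 * g * D := by positivity
      linarith
    have p8 : E * (1 / 2 * D + Iv) = E / 2 * D + E * Iv := by ring
    have p9 : g ^ 2 / 2 * (A1 + A2) = g ^ 2 / 2 * A1 + g ^ 2 / 2 * A2 := by ring
    have p10 : (g ^ 2 / 2 * e2 + 1 / (2 * g ^ 2) * q) * Ψ = g ^ 2 / 2 * (Ψ * e2) + 1 / (2 * g ^ 2) * q * Ψ := by ring
    linarith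

end

end Pool.Agent.Q61.LU
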