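import Pool.Agent.Q61.LU.Base

set_option autoImplicit false

/-! Project LU (helper77), job UPB: scaling and product integrals. -/

namespace Pool.Agent.Q61.LU

open MeasureTheory Set Filter Topology
open scoped ContDiff
open Pool.Agent.Q77.LU

noncomputable section

section
variable {P Q : Type} [Fintype P] [DecidableEq P] [Fintype Q] [DecidableEq Q]

theorem cube_le {x B : ℝ} (hB : 1 ≤ B) (h : x ^ 3 ≤ B) : x ≤ B := by
  by_contra hx
  rw [not_le] at hx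
  have h1 : B ^ 3 < x ^ 3 := pow_lt_pow_left₀ hx (by linarith) (by norm_num)
  have h2 : B ≤ B ^ 3 := by nlinarith [sq_nonneg (B - 1), mul_nonneg (show 0 ≤ B by linarith) (show 0 ≤ B - 1 by linarith)]
  linarith

theorem scale_facts (L : Loc P Q) {g : ℝ} (hg : 0 < g) (hg1 : g ≤ 1) :
    0 < L.s g ∧ L.c4 * L.s g ^ 6 = g ^ 4 ∧ 0 < L.E g ∧ L.E g * L.s g ^ 2 = g ^ 2 ∧ L.c4 * L.s g ^ 4 = L.E g * g ^ 2 ∧
      L.s g ^ 2 ≤ g * (1 + 1 / L.c4) ∧ L.s g ≤ 1 + 1 / L.c4 ∧ L.E g ≤ 1 + L.c4 ∧ L.s g * L.E g ≤ g * (1 + L.c4) := by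
  have hc := L.c4pos
  have hs : 0 < L.s g := by unfold Loc.s; positivity
  have h6 : L.s g ^ 6 = g ^ 4 / L.c4 := by
    unfold Loc.s
    rw [← Real.rpow_natCast, ← Real.rpow_mul (by positivity)]
    norm_num
  set s := L.s g with hsdef
  have hE : L.E g = g ^ 2 / s ^ 2 := rfl
  have hc6 : L.c4 * s ^ 6 = g ^ 4 := by rw [h6]; field_simp
  have hE0 : 0 < L.E g := by rw [hE]; positivity
  have hE2 : L.E g * s ^ 2 = g ^ 2 := by rw [hE]; field_simp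
  have hE4 : L.c4 * s ^ 4 = L.E g * g ^ 2 := by
    have : L.c4 * s ^ 4 * s ^ 2 = L.E g * g ^ 2 * s ^ 2 := by
      calc L.c4 * s ^ 4 * s ^ 2 = L.c4 * s ^ 6 := by ring
        _ = g ^ 2 * g ^ 2 := by rw [hc6]; ring
        _ = (L.E g * s ^ 2) * g ^ 2 := by rw [hE2]
        _ = L.E g * g ^ 2 * s ^ 2 := by ring
    exact mul_right_cancel₀ (by positivity) this
  have hci : 0 < 1 / L.c4 := by positivity
  have hs2 : s ^ 2 ≤ g * (1 + 1 / L.c4) := by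
    have h7 : (s ^ 2 / g) ^ 3 ≤ 1 + 1 / L.c4 := by
      have : (s ^ 2 / g) ^ 3 = g * (1 / L.c4) := by
        calc (s ^ 2 / g) ^ 3 = s ^ 6 / g ^ 3 := by ring
          _ = g * (1 / L.c4) := by rw [h6]; field_simp
      rw [this]
      nlinarith
    have h8 := cube_le (by linarith) h7
    rwa [div_le_iff₀ hg, mul_comm] at h8
  have hs1 : s ≤ 1 + 1 / L.c4 := by
    have h7 : s ^ 2 ≤ (1 + 1 / L.c4) ^ 2 := by nlinarith
    exact (abs_le_of_sq_le_sq' h7 (by positivity)).2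
  have hEF : L.E g ≤ 1 + L.c4 := by
    apply cube_le (by linarith)
    have : L.E g ^ 3 = g ^ 2 * L.c4 := by
      calc L.E g ^ 3 = g ^ 6 / s ^ 6 := by rw [hE]; ring
        _ = g ^ 2 * L.c4 := by rw [h6]; field_simp
    rw [this]
    have : g ^ 2 ≤ 1 := by nlinarith
    nlinarith
  have hsE : s * L.E g ≤ g * (1 + L.c4) := by
    have h7 : (s * L.E g) ^ 2 ≤ (g * (1 + L.c4)) ^ 2 := by
      calc (s * L.E g) ^ 2 = (L.E g * s ^ 2) * L.E g := by ring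
        _ = g ^ 2 * L.E g := by rw [hE2]
        _ ≤ g ^ 2 * (1 + L.c4) := mul_le_mul_of_nonneg_left hEF (by positivity)
        _ ≤ g ^ 2 * (1 + L.c4) ^ 2 := by
            refine mul_le_mul_of_nonneg_left ?_ (by positivity)
            nlinarith
        _ = (g * (1 + L.c4)) ^ 2 := by ring
    exact (abs_le_of_sq_le_sq' h7 (by positivity)).2
  exact ⟨hs, hc6, hE0, hE2, hE4, hs2, hs1, hEF, hsE⟩

/-- scaling of integrals -/
theorem sc_int {s k : ℝ} (hs : 0 < s) (hk : k ^ 2 * s ^ Fintype.card P = 1) (h : (P → ℝ) → ℝ) :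
    ∫ C, k ^ 2 * h (s⁻¹ • C) = ∫ y, h y := by
  rw [integral_const_mul, Measure.integral_comp_smul volume h s⁻¹, Module.finrank_fintype_fun_eq_card, smul_eq_mul,
    abs_of_pos (by positivity), inv_pow, inv_inv, ← mul_assoc, hk, one_mul]

/-- the scaled function -/
def phi (k s : ℝ) (ψ : (P → ℝ) → ℝ) (C : P → ℝ) : ℝ := k * ψ (s⁻¹ • C)

theorem phi_smooth {k s : ℝ} {ψ : (P → ℝ) → ℝ} (h : ContDiff ℝ ∞ ψ) : ContDiff ℝ ∞ (phi k s ψ) := by
  unfold phi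
  exact contDiff_const.mul (h.comp (contDiff_const_smul _))

theorem n2_smul {ι : Type} [Fintype ι] (t : ℝ) (x : ι → ℝ) : n2 (t • x) = t ^ 2 * n2 x := by
  unfold n2
  rw [Finset.mul_sum]
  refine Finset.sum_congr rfl fun i _ => ?_
  simp only [Pi.smul_apply, smul_eq_mul]
  ring

theorem phi_supp {k s R : ℝ} (hs : 0 < s) {ψ : (P → ℝ) → ℝ} (h : ∀ C, ψ C ≠ 0 → n2 C ≤ R ^ 2) (C : P → ℝ)
    (hC : phi k s ψ C ≠ 0) : n2 C ≤ s ^ 2 * R ^ 2 := by
  have h1 := h _ (right_ne_zero_of_mul hC)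
  rw [n2_smul] at h1
  have h2 : s ^ 2 * (s⁻¹ ^ 2 * n2 C) ≤ s ^ 2 * R ^ 2 := mul_le_mul_of_nonneg_left h1 (by positivity)
  calc n2 C = s ^ 2 * (s⁻¹ ^ 2 * n2 C) := by field_simp
    _ ≤ _ := h2

theorem phi_g2 {k s : ℝ} {ψ : (P → ℝ) → ℝ} (h : ContDiff ℝ 1 ψ) (C : P → ℝ) :
    g2 (phi k s ψ) C = k ^ 2 * (s⁻¹ ^ 2 * g2 ψ (s⁻¹ • C)) := by
  unfold g2
  rw [Finset.mul_sum, Finset.mul_sum]
  refine Finset.sum_congr rfl fun i _ => ?_
  have h1 : HasFDerivAt ψ (fderiv ℝ ψ (s⁻¹ • C)) (s⁻¹ • C) :=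
    (h.differentiable (by norm_num)).differentiableAt.hasFDerivAt
  have h2 : HasFDerivAt (fun C : P → ℝ => s⁻¹ • C) (s⁻¹ • ContinuousLinearMap.id ℝ (P → ℝ)) C :=
    (hasFDerivAt_id C).const_smul s⁻¹
  have h3 := (h1.comp C h2).const_mul k
  have h4 : HasFDerivAt (phi k s ψ) _ C := h3
  unfold pd
  rw [h4.fderiv]
  simp only [ContinuousLinearMap.smul_apply, ContinuousLinearMap.comp_apply, ContinuousLinearMap.id_apply, smul_eq_mul,
    map_smul]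
  ring

/-- product integrals -/
theorem prod_int (u : (P → ℝ) → ℝ) (u' : (Q → ℝ) → ℝ) :
    ∫ x : (P → ℝ) × (Q → ℝ), u x.1 * u' x.2 = (∫ C, u C) * ∫ a, u' a := by
  rw [Measure.volume_eq_prod]
  exact integral_prod_mul u u'

theorem CC.prod {u : (P → ℝ) → ℝ} {u' : (Q → ℝ) → ℝ} (h : CC u) (h' : CC u') :
    CC (fun x : (P → ℝ) × (Q → ℝ) => u x.1 * u' x.2) := by
  refine ⟨(h.cont.comp continuous_fst).mul (h'.cont.comp continuous_snd), ?_⟩
  refine HasCompactSupport.of_support_subset_isCompact (h.supp.isCompact.prod h'.supp.isCompact) ?_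
  intro x hx
  exact ⟨subset_tsupport _ (left_ne_zero_of_mul hx), subset_tsupport _ (right_ne_zero_of_mul hx)⟩

theorem gC_prod {u : (P → ℝ) → ℝ} {u' : (Q → ℝ) → ℝ} (h : ContDiff ℝ 1 u) (h' : ContDiff ℝ 1 u') (x : (P → ℝ) × (Q → ℝ)) :
    gC (fun x : (P → ℝ) × (Q → ℝ) => u x.1 * u' x.2) x = g2 u x.1 * u' x.2 ^ 2 := by
  have hd : ContDiff ℝ 1 (fun x : (P → ℝ) × (Q → ℝ) => u x.1 * u' x.2) := (h.comp contDiff_fst).mul (h'.comp contDiff_snd)
  obtain ⟨C, a⟩ := x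
  rw [gC_eq hd]
  unfold g2 pd
  rw [Finset.sum_mul]
  refine Finset.sum_congr rfl fun i _ => ?_
  have h1 : HasFDerivAt (fun C => u C * u' a) (u' a • fderiv ℝ u C) C :=
    ((h.differentiable (by norm_num)).differentiableAt.hasFDerivAt).mul_const (u' a)
  show (fderiv ℝ (fun C => u C * u' a) C (Pi.single i 1)) ^ 2 = _
  rw [h1.fderiv]
  simp only [ContinuousLinearMap.smul_apply, smul_eq_mul]
  ring

theorem gA_prod {u : (P → ℝ) → ℝ} {u' : (Q → ℝ) → ℝ} (h : ContDiff ℝ 1 u) (h' : ContDiff ℝ 1 u') (x : (P → ℝ) × (Q → ℝ)) :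
    gA (fun x : (P → ℝ) × (Q → ℝ) => u x.1 * u' x.2) x = u x.1 ^ 2 * g2 u' x.2 := by
  have hd : ContDiff ℝ 1 (fun x : (P → ℝ) × (Q → ℝ) => u x.1 * u' x.2) := (h.comp contDiff_fst).mul (h'.comp contDiff_snd)
  obtain ⟨C, a⟩ := x
  rw [gA_eq hd]
  unfold g2 pd
  rw [Finset.mul_sum]
  refine Finset.sum_congr rfl fun i _ => ?_
  have h1 : HasFDerivAt (fun a => u C * u' a) (u C • fderiv ℝ u' a) a :=
    ((h'.differentiable (by norm_num)).differentiableAt.hasFDerivAt).const_mul (u C)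
  show (fderiv ℝ (fun a => u C * u' a) a (Pi.single i 1)) ^ 2 = _
  rw [h1.fderiv]
  simp only [ContinuousLinearMap.smul_apply, smul_eq_mul]
  ring

/-- kinetic term in `C` -/
theorem T1_le {K ρ : ℝ} (hK : 0 ≤ K) {φ : (P → ℝ) → ℝ} {G : (Q → ℝ) → ℝ} (hφ : ContDiff ℝ 1 φ) (hφs : HasCompactSupport φ)
    (hρ : ∀ C, φ C ≠ 0 → n2 C ≤ ρ) (hG : CC G) :
    ∫ x : (P → ℝ) × (Q → ℝ), (1 + K * nx x) * (g2 φ x.1 * G x.2 ^ 2) ≤
      (1 + K * ρ) * ((∫ C, g2 φ C) * ∫ a, G a ^ 2) + K * ((∫ C, g2 φ C) * ∫ a, n2 a * G a ^ 2) := by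
  have hg := g2_cc hφ hφs
  have hn := cont_n2 (ι := Q)
  have knx : Continuous (nx : (P → ℝ) × (Q → ℝ) → ℝ) := cont_nx
  have c1 := CC.prod hg hG.sq
  have c2 := CC.prod hg (CC.mulL hn hG.sq)
  rw [← prod_int, ← prod_int, ← integral_const_mul, ← integral_const_mul, ← integral_add (c1.int.const_mul _) (c2.int.const_mul _)]
  refine integral_mono (CC.mulL (by fun_prop) c1).int ((c1.int.const_mul _).add (c2.int.const_mul _)) fun x => ?_
  show (1 + K * nx x) * (g2 φ x.1 * G x.2 ^ 2) ≤ (1 + K * ρ) * (g2 φ x.1 * G x.2 ^ 2) + K * (g2 φ x.1 * (n2 x.2 * G x.2 ^ 2))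
  by_cases hz : fderiv ℝ φ x.1 = 0
  · have : g2 φ x.1 = 0 := by
      unfold g2 pd
      rw [hz]
      simp
    rw [this]
    simp
  · have h1 := fd_n2 hρ hz
    have h2 : 0 ≤ g2 φ x.1 * G x.2 ^ 2 := mul_nonneg (g2_nonneg _ _) (sq_nonneg _)
    have h3 : 1 + K * nx x ≤ 1 + K * ρ + K * n2 x.2 := by
      unfold nx
      nlinarith
    calc (1 + K * nx x) * (g2 φ x.1 * G x.2 ^ 2) ≤ (1 + K * ρ + K * n2 x.2) * (g2 φ x.1 * G x.2 ^ 2) :=
          mul_le_mul_of_nonneg_right h3 h2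
      _ = _ := by ring

/-- kinetic term in `a` -/
theorem T2_le {K ρ : ℝ} (hK : 0 ≤ K) {φ : (P → ℝ) → ℝ} {G : (Q → ℝ) → ℝ} (hφ : CC φ)
    (hρ : ∀ C, φ C ≠ 0 → n2 C ≤ ρ) (hG : ContDiff ℝ 1 G) (hGs : HasCompactSupport G) :
    ∫ x : (P → ℝ) × (Q → ℝ), (1 + K * nx x) * (φ x.1 ^ 2 * g2 G x.2) ≤
      (∫ C, φ C ^ 2) * (∫ a, g2 G a) + K * ρ * ((∫ C, φ C ^ 2) * (∫ a, g2 G a)) +
        K * ((∫ C, φ C ^ 2) * ∫ a, n2 a * g2 G a) := by
  have hg := g2_cc hG hGs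
  have hn := cont_n2 (ι := Q)
  have knx : Continuous (nx : (P → ℝ) × (Q → ℝ) → ℝ) := cont_nx
  have c1 := CC.prod hφ.sq hg
  have c2 := CC.prod hφ.sq (CC.mulL hn hg)
  rw [← prod_int, ← prod_int, ← integral_const_mul, ← integral_const_mul, ← integral_add c1.int (c1.int.const_mul _),
    ← integral_add (c1.add (c1.constL (K * ρ))).int (c2.int.const_mul _)]
  refine integral_mono (CC.mulL (by fun_prop) c1).int ((c1.add (c1.constL (K * ρ))).add (c2.constL K)).int fun x => ?_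
  show (1 + K * nx x) * (φ x.1 ^ 2 * g2 G x.2) ≤ φ x.1 ^ 2 * g2 G x.2 + K * ρ * (φ x.1 ^ 2 * g2 G x.2) +
    K * (φ x.1 ^ 2 * (n2 x.2 * g2 G x.2))
  by_cases hz : φ x.1 = 0
  · rw [hz]
    simp
  · have h1 := hρ _ hz
    have h2 : 0 ≤ φ x.1 ^ 2 * g2 G x.2 := mul_nonneg (sq_nonneg _) (g2_nonneg _ _)
    have h3 : 1 + K * nx x ≤ 1 + K * ρ + K * n2 x.2 := by
      unfold nx
      nlinarith
    calc (1 + K * nx x) * (φ x.1 ^ 2 * g2 G x.2) ≤ (1 + K * ρ + K * n2 x.2) * (φ x.1 ^ 2 * g2 G x.2) :=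
          mul_le_mul_of_nonneg_right h3 h2
      _ = _ := by ring

/-- the potential term -/
theorem T3_le (L : Loc P Q) {KA : ℝ} (hKA0 : 0 ≤ KA) (hKA : ∀ C i j, |L.A C i j| ≤ KA * nr C) {s R V : ℝ} (hs : 0 < s)
    (hR : 0 < R) (hV0 : 0 ≤ V) (hV : ∀ y, n2 y ≤ R ^ 2 → L.v y ≤ V) {φ : (P → ℝ) → ℝ} {G : (Q → ℝ) → ℝ} (hφ : CC φ)
    (hρ : ∀ C, φ C ≠ 0 → n2 C ≤ s ^ 2 * R ^ 2) (hG : CC G)
    (hsupp : ∀ C a, φ C ≠ 0 → G a ≠ 0 → nx (C, a) ≤ L.r ^ 2) {K' g : ℝ} (hg : 0 < g) (hK' : 0 ≤ K')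
    (m0 : ∫ a, G a ^ 2 ≤ 1) (m2 : ∫ a, n2 a * G a ^ 2 ≤ K' * g ^ 2) (m3 : ∫ a, nr a ^ 3 * G a ^ 2 ≤ K' * g ^ 3)
    (mij : ∀ i j, i ≠ j → ∫ a, a i * a j * G a ^ 2 = 0)
    (mii : ∀ i, |(∫ a, a i ^ 2 * G a ^ 2) - g ^ 2 / (2 * L.om i)| ≤ K' * g ^ 4) :
    ∫ x : (P → ℝ) × (Q → ℝ), L.w x * (φ x.1 ^ 2 * G x.2 ^ 2) ≤
      L.c4 * (∫ C, L.v C * φ C ^ 2) + (1 / 2 * (∫ a, (∑ i, L.om i ^ 2 * a i ^ 2) * G a ^ 2) +
        (1 / 2 * (Fintype.card Q * (KA * (s * R) * (K' * g ^ 4))) + L.K * (s * R * (s ^ 4 * V) + s ^ 2 * R ^ 2 * (K' * g ^ 2) +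
          K' * g ^ 3))) * ∫ C, φ C ^ 2 := by
  have hn := cont_n2 (ι := Q)
  have hnr := cont_nr (ι := Q)
  have kv := L.cont
  have kw := L.wcont
  have hKL := L.K0
  have hc4 := L.c4pos
  have c1 := CC.prod hφ.sq hG.sq
  have cw : CC (fun x : (P → ℝ) × (Q → ℝ) => L.w x * (φ x.1 ^ 2 * G x.2 ^ 2)) := CC.mulL kw c1
  have cv : CC (fun C => L.v C * φ C ^ 2) := CC.mulL kv hφ.sq
  set q : ℝ := ∫ a, (∑ i, L.om i ^ 2 * a i ^ 2) * G a ^ 2 with hq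
  set X : ℝ := 1 / 2 * (Fintype.card Q * (KA * (s * R) * (K' * g ^ 4))) + L.K * (s * R * (s ^ 4 * V) +
    s ^ 2 * R ^ 2 * (K' * g ^ 2) + K' * g ^ 3) with hX
  have hX0 : 0 ≤ X := by positivity
  rw [cw.fub, ← integral_const_mul, ← integral_const_mul, ← integral_add (cv.int.const_mul _) (hφ.sq.int.const_mul _)]
  refine integral_mono cw.intL ((cv.constL _).add (hφ.sq.constL _)).int fun C => ?_
  show ∫ a, L.w (C, a) * (φ C ^ 2 * G a ^ 2) ≤ L.c4 * (L.v C * φ C ^ 2) + (1 / 2 * q + X) * φ C ^ 2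
  by_cases hz : φ C = 0
  · simp [hz]
  have hnC := hρ C hz
  have hnrC : nr C ≤ s * R := by
    have h5 : nr C ^ 2 ≤ (s * R) ^ 2 := by rw [nr_sq, mul_pow]; exact hnC
    exact (abs_le_of_sq_le_sq' h5 (by positivity)).2
  have hvC : L.v C ≤ s ^ 4 * V := by
    have h5 : C = s • (s⁻¹ • C) := by rw [smul_smul, mul_inv_cancel₀ hs.ne', one_smul]
    have h6 : n2 (s⁻¹ • C) ≤ R ^ 2 := by
      rw [n2_smul]
      calc s⁻¹ ^ 2 * n2 C ≤ s⁻¹ ^ 2 * (s ^ 2 * R ^ 2) := mul_le_mul_of_nonneg_left hnC (by positivity)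
        _ = R ^ 2 := by field_simp
    rw [h5, L.hom]
    exact mul_le_mul_of_nonneg_left (hV _ h6) (by positivity)
  have hv0 := L.nonneg C
  have hnr0 := nr_nonneg C
  have hn0 := n2_nonneg C
  -- pointwise bound
  set N : (Q → ℝ) → ℝ := fun a => 1 / 2 * ∑ i, a i * ((L.A C).mulVec a) i with hN
  have hNc : Continuous N := by
    have h1 : Continuous fun a : Q → ℝ => (L.A C).mulVec a := by
      unfold Matrix.mulVec dotProduct
      fun_prop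
    have h2 : ∀ i, Continuous fun a : Q → ℝ => ((L.A C).mulVec a) i := fun i => (continuous_apply i).comp h1
    rw [hN]
    fun_prop
  have hpt : ∀ a, L.w (C, a) * (φ C ^ 2 * G a ^ 2) ≤ φ C ^ 2 * ((L.c4 * L.v C + L.K * (nr C * L.v C)) * G a ^ 2 +
      1 / 2 * ((∑ i, L.om i ^ 2 * a i ^ 2) * G a ^ 2) + N a * G a ^ 2 + L.K * n2 C * (n2 a * G a ^ 2) +
        L.K * (nr a ^ 3 * G a ^ 2)) := by
    intro a
    by_cases hGz : G a = 0
    · rw [hGz]; simp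
    · have h7 := (abs_le.1 (L.tay _ (hsupp C a hz hGz))).2
      simp only at h7
      have h8 : L.w (C, a) ≤ L.c4 * L.v C + 1 / 2 * ∑ i, L.om i ^ 2 * a i ^ 2 + N a +
          L.K * (nr C * L.v C + n2 C * n2 a + nr a ^ 3) := by
        rw [hN]
        linarith
      calc L.w (C, a) * (φ C ^ 2 * G a ^ 2) ≤ (L.c4 * L.v C + 1 / 2 * ∑ i, L.om i ^ 2 * a i ^ 2 + N a +
          L.K * (nr C * L.v C + n2 C * n2 a + nr a ^ 3)) * (φ C ^ 2 * G a ^ 2) :=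
            mul_le_mul_of_nonneg_right h8 (by positivity)
        _ = _ := by ring
  have a1 : CC (fun a => (L.c4 * L.v C + L.K * (nr C * L.v C)) * G a ^ 2) := hG.sq.constL _
  have a2 : CC (fun a => 1 / 2 * ((∑ i, L.om i ^ 2 * a i ^ 2) * G a ^ 2)) := (CC.mulL (by fun_prop) hG.sq).constL _
  have a3 : CC (fun a => N a * G a ^ 2) := CC.mulL hNc hG.sq
  have a4 : CC (fun a => L.K * n2 C * (n2 a * G a ^ 2)) := (CC.mulL hn hG.sq).constL _
  have a5 : CC (fun a => L.K * (nr a ^ 3 * G a ^ 2)) := (CC.mulL (by fun_prop) hG.sq).constL _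
  have i1 : ∫ a, L.w (C, a) * (φ C ^ 2 * G a ^ 2) ≤ ∫ a, φ C ^ 2 * ((L.c4 * L.v C + L.K * (nr C * L.v C)) * G a ^ 2 +
      1 / 2 * ((∑ i, L.om i ^ 2 * a i ^ 2) * G a ^ 2) + N a * G a ^ 2 + L.K * n2 C * (n2 a * G a ^ 2) +
        L.K * (nr a ^ 3 * G a ^ 2)) :=
    integral_mono (cw.secR C).int (((((a1.add a2).add a3).add a4).add a5).constL _).int hpt
  have i2 : ∫ a, N a * G a ^ 2 ≤ 1 / 2 * (Fintype.card Q * (KA * (s * R) * (K' * g ^ 4))) := by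
    have e1 : ∀ a, N a * G a ^ 2 = ∑ i, ∑ j, 1 / 2 * L.A C i j * (a i * a j * G a ^ 2) := by
      intro a
      rw [hN]
      simp only
      rw [mul_assoc, Finset.sum_mul, Finset.mul_sum]
      refine Finset.sum_congr rfl fun i _ => ?_
      unfold Matrix.mulVec dotProduct
      rw [Finset.mul_sum, Finset.sum_mul, Finset.mul_sum]
      refine Finset.sum_congr rfl fun j _ => ?_
      ring
    have hij : ∀ i j, Integrable fun a : Q → ℝ => 1 / 2 * L.A C i j * (a i * a j * G a ^ 2) := fun i j =>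
      ((CC.mulL (by fun_prop) hG.sq).constL _).int
    simp_rw [e1]
    rw [integral_finset_sum _ fun i _ => integrable_finset_sum _ fun j _ => hij i j]
    have e2 : ∀ i, ∫ a, ∑ j, 1 / 2 * L.A C i j * (a i * a j * G a ^ 2) = 1 / 2 * (L.A C i i * ∫ a, a i ^ 2 * G a ^ 2) := by
      intro i
      rw [integral_finset_sum _ fun j _ => hij i j, Finset.sum_eq_single i]
      · rw [integral_const_mul, mul_assoc]
        congr 3
        funext a
        ring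
      · intro j _ hj
        rw [integral_const_mul, mij i j (Ne.symm hj), mul_zero]
      · intro h
        exact absurd (Finset.mem_univ i) h
    simp_rw [e2]
    rw [← Finset.mul_sum]
    have e3 : ∑ i, L.A C i i * (∫ a, a i ^ 2 * G a ^ 2) = ∑ i, L.A C i i * ((∫ a, a i ^ 2 * G a ^ 2) - g ^ 2 / (2 * L.om i)) := by
      have e4 : ∑ i, L.A C i i * (g ^ 2 / (2 * L.om i)) = 0 := by
        have e5 : ∑ i, L.A C i i * (g ^ 2 / (2 * L.om i)) = g ^ 2 / 2 * ∑ i, L.A C i i / L.om i := by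
          rw [Finset.mul_sum]
          refine Finset.sum_congr rfl fun i _ => ?_
          have := (L.ompos i).ne'
          field_simp
        rw [e5, L.Atr C, mul_zero]
      simp_rw [mul_sub]
      rw [Finset.sum_sub_distrib, e4, sub_zero]
    rw [e3]
    refine mul_le_mul_of_nonneg_left ?_ (by norm_num)
    have e6 : ∀ i ∈ (Finset.univ : Finset Q), L.A C i i * ((∫ a, a i ^ 2 * G a ^ 2) - g ^ 2 / (2 * L.om i)) ≤
        KA * (s * R) * (K' * g ^ 4) := by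
      intro i _
      refine (le_abs_self _).trans ?_
      rw [abs_mul]
      have h5 : |L.A C i i| ≤ KA * (s * R) := (hKA C i i).trans (mul_le_mul_of_nonneg_left hnrC hKA0)
      exact mul_le_mul h5 (mii i) (abs_nonneg _) (by positivity)
    have e7 := Finset.sum_le_card_nsmul _ _ _ e6
    rw [nsmul_eq_mul, Finset.card_univ] at e7
    exact e7
  refine i1.trans ?_
  rw [integral_const_mul, integral_add (((a1.add a2).add a3).add a4).int a5.int, integral_add ((a1.add a2).add a3).int a4.int,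
    integral_add (a1.add a2).int a3.int, integral_add a1.int a2.int, integral_const_mul, integral_const_mul, integral_const_mul,
    integral_const_mul, ← hq]
  have f0 : 0 ≤ ∫ a, G a ^ 2 := integral_nonneg fun a => sq_nonneg _
  have f1 : (L.c4 * L.v C + L.K * (nr C * L.v C)) * (∫ a, G a ^ 2) ≤ L.c4 * L.v C + L.K * (s * R * (s ^ 4 * V)) := by
    have h5 : nr C * L.v C ≤ s * R * (s ^ 4 * V) := mul_le_mul hnrC hvC hv0 (by positivity)
    have h6 : L.K * (nr C * L.v C) ≤ L.K * (s * R * (s ^ 4 * V)) := mul_le_mul_of_nonneg_left h5 hKL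
    have h7 : 0 ≤ L.c4 * L.v C + L.K * (nr C * L.v C) := by positivity
    calc (L.c4 * L.v C + L.K * (nr C * L.v C)) * (∫ a, G a ^ 2) ≤ (L.c4 * L.v C + L.K * (nr C * L.v C)) * 1 :=
          mul_le_mul_of_nonneg_left m0 h7
      _ ≤ _ := by linarith
  have f2 : L.K * n2 C * (∫ a, n2 a * G a ^ 2) ≤ L.K * (s ^ 2 * R ^ 2 * (K' * g ^ 2)) := by
    calc L.K * n2 C * (∫ a, n2 a * G a ^ 2) ≤ L.K * n2 C * (K' * g ^ 2) := mul_le_mul_of_nonneg_left m2 (by positivity)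
      _ = L.K * (n2 C * (K' * g ^ 2)) := by ring
      _ ≤ L.K * (s ^ 2 * R ^ 2 * (K' * g ^ 2)) :=
          mul_le_mul_of_nonneg_left (mul_le_mul_of_nonneg_right hnC (by positivity)) hKL
  have f3 : L.K * (∫ a, nr a ^ 3 * G a ^ 2) ≤ L.K * (K' * g ^ 3) := mul_le_mul_of_nonneg_left m3 hKL
  have f4 : (L.c4 * L.v C + L.K * (nr C * L.v C)) * (∫ a, G a ^ 2) + 1 / 2 * q + (∫ a, N a * G a ^ 2) +
      L.K * n2 C * (∫ a, n2 a * G a ^ 2) + L.K * (∫ a, nr a ^ 3 * G a ^ 2) ≤ L.c4 * L.v C + (1 / 2 * q + X) := by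
    rw [hX]
    linarith
  calc φ C ^ 2 * ((L.c4 * L.v C + L.K * (nr C * L.v C)) * (∫ a, G a ^ 2) + 1 / 2 * q + (∫ a, N a * G a ^ 2) +
      L.K * n2 C * (∫ a, n2 a * G a ^ 2) + L.K * (∫ a, nr a ^ 3 * G a ^ 2)) ≤ φ C ^ 2 * (L.c4 * L.v C + (1 / 2 * q + X)) :=
        mul_le_mul_of_nonneg_left f4 (sq_nonneg _)
    _ = _ := by ring

end

end

end Pool.Agent.Q61.LU
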